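import Pool.Agent.Lib.MP_6bc78b_nt.GP.H11.Defs11

/-! Project GP11, row SCL2 (statement). -/

set_option autoImplicit false

open Complex Filter Topology MeasureTheory ArithmeticFunction Set
open scoped ENNReal

namespace Pool.Agent.Lib.MP_6bc78b_nt.GP.G11

open Pool.Agent.Lib.MP_6bc78b_nt.MS Pool.Agent.Lib.MP_6bc78b_nt.MS.P1
open Pool.Agent.Lib.MP_6bc78b_nt.GP Pool.Agent.Lib.MP_6bc78b_nt.GP.G7
open Pool.Agent.Lib.MP_6bc78b_nt.GP.G10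

/-- SCL2: SCLBQ, and the square of the polynomial is short with a bounded form. -/
def SCL2Statement : Prop := ∀ ν : ℝ, 0 < ν → ∃ w : ℝ, 2 ≤ w ∧ ∀ A : ℕ,
  ∃ T0 : ℝ, 10 < T0 ∧ ∀ T : ℝ, T0 ≤ T → ∃ (K : ℕ) (S : Finset ℕ) (β : ℕ → ℝ)
    (S' : ℕ → Finset ℕ) (β' : ℕ → ℕ → ℝ) (S2 : Finset ℕ) (β2 : ℕ → ℂ),
    1200 * Real.log (Real.log T) ≤ pk w K ∧
    pk w K ≤ (1200 * Real.log (Real.log T)) ^ 2 ∧
    Scl w K S β S' β' (Real.exp (Real.log (Real.log T) ^ 5)) ν ∧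
    ∑ m ∈ S, β m ^ 2 / m ≤ 1 / Real.log (Real.log (Real.log T)) ^ A ∧
    (∀ m ∈ S2, 1 ≤ m ∧ (m : ℝ) ≤ Real.exp (Real.log (Real.log T) ^ 6)) ∧
    (∀ s : ℂ, cA S2 β2 s = pB S β s ^ 2) ∧ Rf S2 β2 ≤ 2

end Pool.Agent.Lib.MP_6bc78b_nt.GP.G11
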