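import Pool.Agent.Lib.MP_6bc78b_nt.GP.Iface
import Pool.Agent.Lib.MP_6bc78b_nt.MS.P1.CHI

/-! Project GP, module FEQ: the functional equation of `D ω`. -/

set_option autoImplicit false

open Complex Filter Topology MeasureTheory

namespace Pool.Agent.Lib.MP_6bc78b_nt.GP.H35

open Pool.Agent.Lib.MP_6bc78b_nt.MS Pool.Agent.Lib.MP_6bc78b_nt.MS.P1
open Pool.Agent.Lib.MP_6bc78b_nt.MS.P1.CHI Pool.Agent.Lib.MP_6bc78b_nt.GP

theorem differentiableAt_om {s : ℂ} (hs : 0 < s.re) (hi : s.im ≠ 0) : DifferentiableAt ℂ om s := by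
  have hopen : IsOpen {z : ℂ | 0 < z.re} := isOpen_lt continuous_const Complex.continuous_re
  have hd : DifferentiableOn ℂ XX {z : ℂ | 0 < z.re} := fun z hz =>
    (differentiableAt_XX hz).differentiableWithinAt
  have h1 : DifferentiableAt ℂ (deriv XX) s :=
    (hd.deriv hopen).differentiableAt (hopen.mem_nhds hs)
  have h2 : om = fun z => deriv XX z / XX z := by
    funext z; unfold om; rw [logDeriv_apply]
  rw [h2]
  exact h1.div (differentiableAt_XX hs) (XX_ne_zero hs hi)

theorem deriv2_zeta_refl {s : ℂ} (hs : 0 < s.re) (hi : s.im ≠ 0) :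
    deriv (deriv riemannZeta) (1 - s) = XX s * (om s ^ 2 * riemannZeta s +
      2 * om s * deriv riemannZeta s + deriv om s * riemannZeta s +
        deriv (deriv riemannZeta) s) := by
  have hopen : IsOpen {z : ℂ | 0 < z.re ∧ z.im ≠ 0} := by
    refine IsOpen.inter (isOpen_lt continuous_const Complex.continuous_re) ?_
    exact isOpen_ne_fun Complex.continuous_im continuous_const
  have hev : (fun z : ℂ => deriv riemannZeta (1 - z)) =ᶠ[𝓝 s]
      fun z => -(XX z * (om z * riemannZeta z + deriv riemannZeta z)) := by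
    filter_upwards [hopen.mem_nhds (show s ∈ {z : ℂ | 0 < z.re ∧ z.im ≠ 0} from ⟨hs, hi⟩)] with z hz
    exact deriv_zeta_refl hz.1 hz.2
  have h1 : s ≠ 1 := by
    intro h
    rw [h] at hi
    exact hi Complex.one_im
  have h1' : 1 - s ≠ 1 := by
    intro h
    have h2 : s = 0 := by linear_combination -h
    rw [h2] at hi
    exact hi Complex.zero_im
  have hdz : ∀ z : ℂ, z ≠ 1 → DifferentiableAt ℂ (deriv riemannZeta) z := by
    intro z hz
    have ho : IsOpen {w : ℂ | w ≠ 1} := isOpen_ne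
    have hd : DifferentiableOn ℂ riemannZeta {w : ℂ | w ≠ 1} := fun w hw =>
      (differentiableAt_riemannZeta hw).differentiableWithinAt
    exact (hd.deriv ho).differentiableAt (ho.mem_nhds hz)
  have hz1 : HasDerivAt (fun z : ℂ => deriv riemannZeta (1 - z))
      (deriv (deriv riemannZeta) (1 - s) * (-1)) s := by
    have ha : HasDerivAt (deriv riemannZeta) (deriv (deriv riemannZeta) (1 - s)) (1 - s) :=
      (hdz _ h1').hasDerivAt
    have hb : HasDerivAt (fun z : ℂ => 1 - z) (-1) s := by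
      simpa using (hasDerivAt_id s).const_sub 1
    exact ha.comp s hb
  have hz2 : HasDerivAt (fun z : ℂ => -(XX z * (om z * riemannZeta z + deriv riemannZeta z)))
      (-(deriv XX s * (om s * riemannZeta s + deriv riemannZeta s) +
        XX s * ((deriv om s * riemannZeta s + om s * deriv riemannZeta s) +
          deriv (deriv riemannZeta) s))) s :=
    ((differentiableAt_XX hs).hasDerivAt.mul
      ((((differentiableAt_om hs hi).hasDerivAt).mul (differentiableAt_riemannZeta h1).hasDerivAt).add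
        (hdz _ h1).hasDerivAt)).neg
  have hz3 := hz2.congr_of_eventuallyEq hev
  have heq := hz1.unique hz3
  have hom : XX s * om s = deriv XX s := by
    unfold om
    rw [logDeriv_apply, mul_div_cancel₀ _ (XX_ne_zero hs hi)]
  rw [← hom] at heq
  linear_combination -heq

theorem DF_refl (A B : ℝ) {s : ℂ} (hs : 0 < s.re) (hi : s.im ≠ 0) (hz : riemannZeta s ≠ 0) :
    DF A B (1 - s) = XX s * ((om s ^ 2 / 2 - deriv om s / 2 - A * om s - B) * riemannZeta s +
      (om s - A) * deriv riemannZeta s + FF s - deriv (deriv riemannZeta) s / 2) := by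
  have hX := XX_ne_zero hs hi
  unfold DF FF F0
  rw [deriv2_zeta_refl hs hi, deriv_zeta_refl hs hi, zeta_refl hs hi]
  field_simp
  ring

theorem sin_ne {s : ℂ} (hi : s.im ≠ 0) : Complex.sin (Real.pi * s) ≠ 0 := by
  intro h
  rw [Complex.sin_eq_zero_iff] at h
  obtain ⟨k, hk⟩ := h
  have h1 := congrArg Complex.im hk
  have h2 : ((Real.pi : ℂ) * s).im = Real.pi * s.im := Complex.im_ofReal_mul _ _
  have h3 : ((k : ℂ) * Real.pi : ℂ).im = 0 := by
    rw [show ((k : ℂ) * Real.pi : ℂ) = (((k : ℝ) * Real.pi : ℝ) : ℂ) by push_cast; ring]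
    exact Complex.ofReal_im _
  rw [h2, h3] at h1
  rcases mul_eq_zero.1 h1 with h5 | h5
  · exact Real.pi_ne_zero h5
  · exact hi h5

theorem om0_XX (δ : ℝ) {s : ℂ} (_hs : 0 < s.re) (hi : s.im ≠ 0) :
    XX s * om0 δ (1 - s) = Complex.exp (δ * I * (1 - s)) /
      (1 + Complex.exp (Real.pi * I * (1 - s))) := by
  have hG := Complex.Gamma_mul_Gamma_one_sub s
  have hs1 := sin_ne hi
  have hpi : (Real.pi : ℂ) ≠ 0 := by exact_mod_cast Real.pi_ne_zero
  -- the double angle
  have hsin : Complex.sin (Real.pi * s) =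
      2 * Complex.sin (Real.pi * s / 2) * Complex.cos (Real.pi * s / 2) := by
    rw [← Complex.sin_two_mul]; congr 1; ring
  have hsin2 : Complex.sin (Real.pi * s / 2) ≠ 0 := by
    intro h; apply hs1; rw [hsin, h]; ring
  have hcos2 : Complex.cos (Real.pi * s / 2) ≠ 0 := by
    intro h; apply hs1; rw [hsin, h]; ring
  have hpow : (2 * Real.pi : ℂ) ^ (-s) * (2 * Real.pi : ℂ) ^ (-(1 - s)) = (2 * Real.pi : ℂ)⁻¹ := by
    rw [← Complex.cpow_add _ _ two_pi_ne, show -s + -(1 - s) = -1 by ring, Complex.cpow_neg_one]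
  -- exponentials
  set θ : ℂ := Real.pi / 2 * I * (1 - s) with hθ
  have he1 : Complex.exp (-(Real.pi / 2 * I * (1 - s)) + δ * I * (1 - s)) =
      Complex.exp (-θ) * Complex.exp (δ * I * (1 - s)) := by
    rw [← Complex.exp_add]
  have he2 : Complex.exp (Real.pi * I * (1 - s)) = Complex.exp θ * Complex.exp θ := by
    rw [← Complex.exp_add]; congr 1; rw [hθ]; ring
  have he3 : 2 * Complex.sin (Real.pi * s / 2) = Complex.exp θ + Complex.exp (-θ) := by
    have h1 : Complex.sin (Real.pi * s / 2) = Complex.cos (Real.pi * (1 - s) / 2) := by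
      rw [← Complex.cos_pi_div_two_sub]; congr 1; ring
    rw [h1, Complex.cos]
    have h2 : Real.pi * (1 - s) / 2 * I = θ := by rw [hθ]; ring
    have h3 : -(Real.pi * (1 - s) / 2) * I = -θ := by rw [hθ]; ring
    rw [h2, h3]; ring
  have hee : Complex.exp θ * Complex.exp (-θ) = 1 := by
    rw [← Complex.exp_add]; simp
  have hne : Complex.exp (-θ) ≠ 0 := Complex.exp_ne_zero _
  have hden : 1 + Complex.exp (Real.pi * I * (1 - s)) =
      Complex.exp θ * (2 * Complex.sin (Real.pi * s / 2)) := by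
    rw [he2, he3, mul_add, hee]; ring
  rw [hden]
  unfold XX om0
  rw [he1]
  have hG' : Complex.Gamma s * Complex.Gamma (1 - s) *
      (2 * Complex.sin (Real.pi * s / 2) * Complex.cos (Real.pi * s / 2)) = Real.pi := by
    rw [hG, ← hsin]; field_simp
  have hE : Complex.exp θ ≠ 0 := Complex.exp_ne_zero _
  rw [eq_div_iff (mul_ne_zero hE (mul_ne_zero two_ne_zero hsin2))]
  have hfinal : 2 * (2 * Real.pi : ℂ) ^ (-s) * Complex.Gamma s * Complex.cos (Real.pi * s / 2) *
      (Complex.Gamma (1 - s) * (2 * Real.pi : ℂ) ^ (-(1 - s)) *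
        (Complex.exp (-θ) * Complex.exp (δ * I * (1 - s)))) *
      (Complex.exp θ * (2 * Complex.sin (Real.pi * s / 2))) =
      2 * ((2 * Real.pi : ℂ) ^ (-s) * (2 * Real.pi : ℂ) ^ (-(1 - s))) *
        (Complex.exp θ * Complex.exp (-θ)) * Complex.exp (δ * I * (1 - s)) *
        (Complex.Gamma s * Complex.Gamma (1 - s) *
          (2 * Complex.sin (Real.pi * s / 2) * Complex.cos (Real.pi * s / 2))) := by
    ring
  rw [hfinal, hpow, hee, hG']
  field_simp

theorem feq : FEQStatement := by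
  intro A B δ s hs hi hz
  have hi' : s.im ≠ 0 := ne_of_lt hi
  rw [DF_refl A B hs hi' hz]
  have h := om0_XX δ hs hi'
  rw [← h]
  ring

end Pool.Agent.Lib.MP_6bc78b_nt.GP.H35
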