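import Pool.Agent.Lib.MP_6bc78b_nt.GP.H62.Defs7

/-! Projects GP7, GP8 (MP_6bc78b_nt), rows ARE: the energy over the strip, from the middle region. -/

set_option autoImplicit false

open Complex Filter Topology MeasureTheory ArithmeticFunction Set
open scoped ENNReal

namespace Pool.Agent.Lib.MP_6bc78b_nt.GP.G7

open Pool.Agent.Lib.MP_6bc78b_nt.MS Pool.Agent.Lib.MP_6bc78b_nt.MS.P1

namespace X35

theorem bn_bound (hb : BASXStatement) (A B : ℝ) (n : ℕ) :
    |bn A B n| ≤ (3 + |A| + |B|) * (1 + Real.log n) ^ 2 := by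
  obtain ⟨h1, h2, -, -⟩ := hb
  rw [h1 A B n]
  obtain ⟨h3, h4⟩ := h2 n
  rcases Nat.eq_zero_or_pos n with rfl | hn
  · have : bet 0 = 0 := by
      simp only [Nat.cast_zero, Real.log_zero] at h4
      norm_num at h4
      linarith
    simp [smo, this]
    positivity
  · have hl : 0 ≤ Real.log n := Real.log_natCast_nonneg n
    have hne : n ≠ 0 := hn.ne'
    have h5 : |smo A B n| ≤ (1 + |A| + |B|) * (1 + Real.log n) ^ 2 := by
      unfold smo
      rw [if_neg hne]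
      have e1 : |Real.log n ^ 2 / 2 - A * Real.log n - B| ≤
          |Real.log n ^ 2 / 2| + |A * Real.log n| + |B| := by
        have := abs_sub (Real.log n ^ 2 / 2 - A * Real.log n) B
        have := abs_sub (Real.log n ^ 2 / 2) (A * Real.log n)
        linarith
      have e0 : |Real.log n ^ 2 / 2| = Real.log n ^ 2 / 2 := abs_of_nonneg (by positivity)
      rw [abs_mul A, abs_of_nonneg hl, e0] at e1
      refine e1.trans ?_
      have := abs_nonneg A
      have := abs_nonneg B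
      have e2 : Real.log n ≤ (1 + Real.log n) ^ 2 := by nlinarith
      have e3 : 1 ≤ (1 + Real.log n) ^ 2 := by nlinarith
      have e4 : Real.log n ^ 2 / 2 ≤ (1 + Real.log n) ^ 2 := by nlinarith
      nlinarith [mul_le_mul_of_nonneg_left e2 (abs_nonneg A),
        mul_le_mul_of_nonneg_left e3 (abs_nonneg B)]
    have h6 : |bet n| ≤ 1 * (1 + Real.log n) ^ 2 := by
      rw [abs_of_nonneg h3]
      nlinarith
    have := abs_sub (smo A B n) (bet n)
    nlinarith [sq_nonneg (1 + Real.log n)]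

theorem log_sq_le (n : ℕ) : (1 + Real.log n) ^ 2 ≤ 4 * (1 + n) := by
  rcases Nat.eq_zero_or_pos n with rfl | hn
  · simp
  · have hn1 : (1 : ℝ) ≤ n := by exact_mod_cast hn
    have hs : 0 < Real.sqrt n := Real.sqrt_pos.2 (by linarith)
    have h1 : Real.log n = 2 * Real.log (Real.sqrt n) := by
      rw [Real.log_sqrt (by linarith)]
      ring
    have h2 := Real.log_le_sub_one_of_pos hs
    have hl : 0 ≤ Real.log n := Real.log_natCast_nonneg n
    have h3 : 1 + Real.log n ≤ 2 * Real.sqrt n := by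
      rw [h1]
      linarith
    have h4 : (1 + Real.log n) ^ 2 ≤ (2 * Real.sqrt n) ^ 2 :=
      pow_le_pow_left₀ (by linarith) h3 2
    rw [mul_pow, Real.sq_sqrt (by linarith)] at h4
    linarith

theorem meas_strip (a b R T : ℝ) : MeasurableSet (strip a b R T) := by
  apply IsClosed.measurableSet
  have h1 : strip a b R T = {z : ℂ | a / T ≤ z.re} ∩ ({z : ℂ | z.re ≤ b / T} ∩
      {z : ℂ | |z.im| ≤ R}) := rfl
  rw [h1]
  exact (isClosed_le continuous_const continuous_re).inter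
    ((isClosed_le continuous_re continuous_const).inter
      (isClosed_le (continuous_abs.comp continuous_im) continuous_const))

/-- The whole strip without weight. -/
theorem whole (hs : STRXStatement) (hb : BASXStatement) (ha : ARI0Statement) (A B a b R : ℝ)
    (h0 : 0 < a) (hab : a < b) (hR : 0 < R) : ∃ C : ℝ, 0 < C ∧ ∀ T : ℝ, 10 ≤ T →
    ∫⁻ z in strip a b R T, ENNReal.ofReal (‖EE A B z‖ ^ 2) ≤
      ENNReal.ofReal (C * Real.log T ^ 4) := by
  obtain ⟨C1, hC1, h1⟩ := hs a b R h0 hab hR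
  obtain ⟨C2, hC2, h2⟩ := ha a h0
  set E : ℝ := 3 + |A| + |B| with hE
  have hE0 : 0 < E := by positivity
  refine ⟨C1 * (E ^ 2 * C2), by positivity, fun T hT => ?_⟩
  have hT0 : 0 < T := by linarith
  have h3 := h1 T (bn A B) hT ⟨E * 4, fun n => by
    have := bn_bound hb A B n
    have h4 := mul_le_mul_of_nonneg_left (log_sq_le n) hE0.le
    linarith⟩
  refine le_trans h3 (ENNReal.ofReal_le_ofReal ?_)
  obtain ⟨h5, h6⟩ := h2 T hT
  have h7 : ∀ n : ℕ, bn A B n ^ 2 * Real.exp (-(2 * a / T * n)) ≤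
      E ^ 2 * ((1 + Real.log n) ^ 4 * Real.exp (-(2 * a / T * n))) := fun n => by
    have h8 := bn_bound hb A B n
    have h9 : bn A B n ^ 2 ≤ E ^ 2 * (1 + Real.log n) ^ 4 := by
      rw [← sq_abs]
      calc |bn A B n| ^ 2 ≤ (E * (1 + Real.log n) ^ 2) ^ 2 :=
            pow_le_pow_left₀ (abs_nonneg _) h8 2
        _ = _ := by ring
    have := mul_le_mul_of_nonneg_right h9 (Real.exp_pos (-(2 * a / T * n))).le
    linarith
  have h8 : Summable fun n : ℕ => bn A B n ^ 2 * Real.exp (-(2 * a / T * n)) :=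
    Summable.of_nonneg_of_le (fun n => by positivity) h7 (h5.mul_left _)
  have h9 : ∑' n : ℕ, bn A B n ^ 2 * Real.exp (-(2 * a / T * n)) ≤
      E ^ 2 * (C2 * T * Real.log T ^ 4) := by
    refine (h8.tsum_le_tsum h7 (h5.mul_left _)).trans ?_
    rw [tsum_mul_left]
    exact mul_le_mul_of_nonneg_left h6 (by positivity)
  calc C1 / T * ∑' n : ℕ, bn A B n ^ 2 * Real.exp (-(2 * a / T * n)) ≤
      C1 / T * (E ^ 2 * (C2 * T * Real.log T ^ 4)) :=
        mul_le_mul_of_nonneg_left h9 (by positivity)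
    _ = C1 * (E ^ 2 * C2) * Real.log T ^ 4 := by
        field_simp

/-- The weight is at most one. -/
theorem w_le_one {x l k y : ℝ} (hx : 0 ≤ x) (hk : 0 < k) : x / (1 + k * l ^ 2 * y ^ 2) ≤ x :=
  div_le_self hx (by nlinarith [mul_nonneg hk.le (mul_nonneg (sq_nonneg l) (sq_nonneg y))])

/-- The energy at one pair `(T, lam)` from the middle region at `(T, c lam)`. -/
theorem core (h5 : ARE5Statement) (hS : STRXStatement) (hB : BASXStatement)
    (hA : ARI0Statement) (RH : RiemannHypothesis) (A B : ℝ) (D : ℂ → ℂ) (hD : IsD A B D)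
    (a b R κ₀ ε : ℝ) (ha : 0 < a) (hab : a < b) (hR : 0 < R) (hκ : 0 < κ₀) (hε : 0 < ε) :
    ∃ c T0 : ℝ, 0 < c ∧ c ≤ 1 ∧ 10 < T0 ∧ ∀ T lam : ℝ, T0 ≤ T → 0 < lam → lam ≤ Real.log T →
      ∫⁻ z in mid a b T (Real.log T ^ 2) (c * lam), ENNReal.ofReal (‖EE A B z‖ ^ 2) ≤
        ENNReal.ofReal (ε / 3 * Real.log T ^ 4) →
      ∫⁻ z in strip a b R T, ENNReal.ofReal (‖EE A B z‖ ^ 2 / (1 + κ₀ * lam ^ 2 * z.im ^ 2)) ≤
        ENNReal.ofReal (ε * Real.log T ^ 4) := by
  obtain ⟨C1, T1, hC1, hT1, h1⟩ := h5 RH A B D hD a b R 1 ha hab hR one_pos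
  obtain ⟨C3, hC3, h3⟩ := whole hS hB hA A B a b R ha hab hR
  -- the constant
  obtain ⟨c, hc0, hc1, hc⟩ : ∃ c : ℝ, 0 < c ∧ c ≤ 1 ∧ c ^ 2 / κ₀ * C3 ≤ ε / 3 := by
    refine ⟨min 1 (ε * κ₀ / (3 * C3)), by positivity, min_le_left _ _, ?_⟩
    set m := min 1 (ε * κ₀ / (3 * C3)) with hm
    have hm0 : 0 < m := by positivity
    have hm1 : m ≤ 1 := min_le_left _ _
    have hm2 : m ≤ ε * κ₀ / (3 * C3) := min_le_right _ _
    have hm3 : m ^ 2 ≤ ε * κ₀ / (3 * C3) := by nlinarith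
    calc m ^ 2 / κ₀ * C3 ≤ (ε * κ₀ / (3 * C3)) / κ₀ * C3 := by gcongr
      _ = ε / 3 := by field_simp
  -- large T
  have hlog : Tendsto (fun T : ℝ => Real.log T) atTop atTop := Real.tendsto_log_atTop
  have hev : ∀ᶠ T : ℝ in atTop, Real.exp 1 * C1 * 3 / ε ≤ Real.log T ∧ 1 ≤ Real.log T ∧
      Real.log T ^ 2 ≤ T := by
    refine (hlog.eventually_ge_atTop _).and ((hlog.eventually_ge_atTop _).and ?_)
    have := (Real.isLittleO_pow_log_id_atTop (n := 2)).bound (c := 1) one_pos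
    filter_upwards [this, eventually_ge_atTop 0] with T h hT
    simp only [id, Real.norm_eq_abs, one_mul] at h
    rw [abs_of_nonneg (by positivity), abs_of_nonneg hT] at h
    exact h
  obtain ⟨T3, hT3⟩ := eventually_atTop.1 hev
  refine ⟨c, max T1 T3, hc0, hc1, lt_max_of_lt_left hT1, fun T lam hT hlam hl2 hmid => ?_⟩
  have hTa : T1 ≤ T := (le_max_left _ _).trans hT
  obtain ⟨e1, e2, e4⟩ := hT3 T ((le_max_right _ _).trans hT)
  set L := Real.log T with hL
  have hT10 : 10 < T := hT1.trans_le hTa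
  have hL0 : 0 < L := by linarith
  set h := c * lam with hh
  have hh0 : 0 < h := by positivity
  -- three parts
  have hsub : strip a b R T ⊆ (strip a b R T ∩ {z : ℂ | |z.im| ≤ 1 / L ^ 2}) ∪
      (mid a b T (L ^ 2) h ∪ (strip a b R T ∩ {z : ℂ | 1 / h ≤ |z.im|})) := by
    intro z hz
    by_cases c1 : |z.im| ≤ 1 / L ^ 2
    · exact Or.inl ⟨hz, c1⟩
    · by_cases c2 : 1 / h ≤ |z.im|
      · exact Or.inr (Or.inr ⟨hz, c2⟩)
      · push Not at c1 c2
        exact Or.inr (Or.inl ⟨⟨hz.1, hz.2.1⟩, c1.le, c2.le⟩)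
  have hm1 : MeasurableSet (strip a b R T ∩ {z : ℂ | |z.im| ≤ 1 / L ^ 2}) :=
    (meas_strip a b R T).inter
      (isClosed_le (continuous_abs.comp continuous_im) continuous_const).measurableSet
  have hm3 : MeasurableSet (strip a b R T ∩ {z : ℂ | 1 / h ≤ |z.im|}) :=
    (meas_strip a b R T).inter
      (isClosed_le continuous_const (continuous_abs.comp continuous_im)).measurableSet
  have p1 : ∫⁻ z in strip a b R T ∩ {z : ℂ | |z.im| ≤ 1 / L ^ 2},
      ENNReal.ofReal (‖EE A B z‖ ^ 2 / (1 + κ₀ * lam ^ 2 * z.im ^ 2)) ≤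
      ENNReal.ofReal (ε / 3 * L ^ 4) := by
    have g1 : ∀ z ∈ strip a b R T ∩ {z : ℂ | |z.im| ≤ 1 / L ^ 2},
        ENNReal.ofReal (‖EE A B z‖ ^ 2 / (1 + κ₀ * lam ^ 2 * z.im ^ 2)) ≤
        ENNReal.ofReal (Real.exp 1) * ENNReal.ofReal (‖EE A B z‖ ^ 2 *
          Real.exp (-(1 * (L ^ 2) ^ 2 * z.im ^ 2))) := by
      intro z hz
      rw [← ENNReal.ofReal_mul (Real.exp_pos _).le]
      refine ENNReal.ofReal_le_ofReal ?_
      refine (w_le_one (by positivity) hκ).trans ?_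
      have g2 : |z.im| ≤ 1 / L ^ 2 := hz.2
      have g3 : 1 * (L ^ 2) ^ 2 * z.im ^ 2 ≤ 1 := by
        rw [← sq_abs z.im]
        have g4 : L ^ 2 * |z.im| ≤ 1 := by
          rw [le_div_iff₀ (by positivity)] at g2
          linarith
        have g5 : 0 ≤ L ^ 2 * |z.im| := by positivity
        have g6 : (L ^ 2 * |z.im|) ^ 2 ≤ 1 := by nlinarith
        calc 1 * (L ^ 2) ^ 2 * |z.im| ^ 2 = (L ^ 2 * |z.im|) ^ 2 := by ring
          _ ≤ 1 := g6
      have g4 : 1 ≤ Real.exp 1 * Real.exp (-(1 * (L ^ 2) ^ 2 * z.im ^ 2)) := by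
        rw [← Real.exp_add]
        exact Real.one_le_exp (by linarith)
      calc ‖EE A B z‖ ^ 2 = ‖EE A B z‖ ^ 2 * 1 := by ring
        _ ≤ ‖EE A B z‖ ^ 2 * (Real.exp 1 * Real.exp (-(1 * (L ^ 2) ^ 2 * z.im ^ 2))) :=
            mul_le_mul_of_nonneg_left g4 (by positivity)
        _ = _ := by ring
    refine (setLIntegral_mono' hm1 g1).trans ?_
    rw [lintegral_const_mul' _ _ ENNReal.ofReal_ne_top]
    have g2 := h1 T (L ^ 2) hTa (by nlinarith) e4
    have g3 : ∫⁻ z in strip a b R T ∩ {z : ℂ | |z.im| ≤ 1 / L ^ 2},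
        ENNReal.ofReal (‖EE A B z‖ ^ 2 * Real.exp (-(1 * (L ^ 2) ^ 2 * z.im ^ 2))) ≤
        ENNReal.ofReal (C1 * L ^ 5 / L ^ 2) :=
      (lintegral_mono_set inter_subset_left).trans g2
    refine (mul_le_mul_right g3 _).trans ?_
    rw [← ENNReal.ofReal_mul (Real.exp_pos _).le]
    refine ENNReal.ofReal_le_ofReal ?_
    have g4 : Real.exp 1 * (C1 * L ^ 5 / L ^ 2) = (Real.exp 1 * C1) * L ^ 3 := by
      field_simp
    rw [g4]
    have g5 : Real.exp 1 * C1 ≤ ε / 3 * L := by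
      rw [div_le_iff₀ hε] at e1
      linarith
    calc Real.exp 1 * C1 * L ^ 3 ≤ ε / 3 * L * L ^ 3 :=
          mul_le_mul_of_nonneg_right g5 (by positivity)
      _ = ε / 3 * L ^ 4 := by ring
  have p2 : ∫⁻ z in mid a b T (L ^ 2) h,
      ENNReal.ofReal (‖EE A B z‖ ^ 2 / (1 + κ₀ * lam ^ 2 * z.im ^ 2)) ≤
      ENNReal.ofReal (ε / 3 * L ^ 4) := by
    exact le_trans (lintegral_mono fun z => ENNReal.ofReal_le_ofReal
      (w_le_one (by positivity) hκ)) hmid
  have p3 : ∫⁻ z in strip a b R T ∩ {z : ℂ | 1 / h ≤ |z.im|},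
      ENNReal.ofReal (‖EE A B z‖ ^ 2 / (1 + κ₀ * lam ^ 2 * z.im ^ 2)) ≤
      ENNReal.ofReal (ε / 3 * L ^ 4) := by
    have g1 : ∀ z ∈ strip a b R T ∩ {z : ℂ | 1 / h ≤ |z.im|},
        ENNReal.ofReal (‖EE A B z‖ ^ 2 / (1 + κ₀ * lam ^ 2 * z.im ^ 2)) ≤
        ENNReal.ofReal (c ^ 2 / κ₀) * ENNReal.ofReal (‖EE A B z‖ ^ 2) := by
      intro z hz
      rw [← ENNReal.ofReal_mul (by positivity)]
      refine ENNReal.ofReal_le_ofReal ?_
      have g2 : 1 / h ≤ |z.im| := hz.2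
      have g3 : 1 ≤ c * lam * |z.im| := by
        rw [div_le_iff₀ hh0] at g2
        linarith
      have g4 : 1 ≤ c ^ 2 * (lam ^ 2 * z.im ^ 2) := by
        rw [← sq_abs z.im]
        have : 1 ≤ (c * lam * |z.im|) ^ 2 := by nlinarith
        calc (1 : ℝ) ≤ (c * lam * |z.im|) ^ 2 := this
          _ = _ := by ring
      have g5 : 0 < 1 + κ₀ * lam ^ 2 * z.im ^ 2 := by positivity
      rw [div_le_iff₀ g5]
      have g6 : 1 ≤ c ^ 2 / κ₀ * (1 + κ₀ * lam ^ 2 * z.im ^ 2) := by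
        have g7 : c ^ 2 / κ₀ * (1 + κ₀ * lam ^ 2 * z.im ^ 2) =
            c ^ 2 / κ₀ + c ^ 2 * (lam ^ 2 * z.im ^ 2) := by
          field_simp
        rw [g7]
        have : 0 ≤ c ^ 2 / κ₀ := by positivity
        linarith
      calc ‖EE A B z‖ ^ 2 = ‖EE A B z‖ ^ 2 * 1 := by ring
        _ ≤ ‖EE A B z‖ ^ 2 * (c ^ 2 / κ₀ * (1 + κ₀ * lam ^ 2 * z.im ^ 2)) :=
            mul_le_mul_of_nonneg_left g6 (by positivity)
        _ = _ := by ring
    refine (setLIntegral_mono' hm3 g1).trans ?_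
    rw [lintegral_const_mul' _ _ ENNReal.ofReal_ne_top]
    refine (mul_le_mul_right ((lintegral_mono_set inter_subset_left).trans (h3 T hT10.le))
      _).trans ?_
    rw [← ENNReal.ofReal_mul (by positivity)]
    refine ENNReal.ofReal_le_ofReal ?_
    have g5 := mul_le_mul_of_nonneg_right hc (show 0 ≤ L ^ 4 by positivity)
    calc c ^ 2 / κ₀ * (C3 * L ^ 4) = c ^ 2 / κ₀ * C3 * L ^ 4 := by ring
      _ ≤ _ := g5
  refine (lintegral_mono_set hsub).trans ((lintegral_union_le _ _ _).trans ?_)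
  refine (add_le_add p1 ((lintegral_union_le _ _ _).trans (add_le_add p2 p3))).trans ?_
  rw [← ENNReal.ofReal_add (by positivity) (by positivity),
    ← ENNReal.ofReal_add (by positivity) (by positivity)]
  exact ENNReal.ofReal_le_ofReal (by linarith)

end X35

end Pool.Agent.Lib.MP_6bc78b_nt.GP.G7
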