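import Pool.Agent.Lib.MP_6bc78b_nt.GP.H62.Defs9a
import Pool.Agent.Lib.MP_6bc78b_nt.GP.H35.AreX

/-! Project GP9 (MP_6bc78b_nt), row ARE9: the energy over the strip, from the middle region. -/

set_option autoImplicit false

open Complex Filter Topology MeasureTheory ArithmeticFunction Set
open scoped ENNReal

namespace Pool.Agent.Lib.MP_6bc78b_nt.GP.G9

open Pool.Agent.Lib.MP_6bc78b_nt.MS Pool.Agent.Lib.MP_6bc78b_nt.MS.P1
  Pool.Agent.Lib.MP_6bc78b_nt.GP.G7

theorem are9 (hM : MID9Statement) (h5 : ARE5Statement) (hS : STRXStatement) (hB : BASXStatement)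
    (hA : ARI0Statement) : ARE9Statement := by
  intro RH A B D hD a b R κ₀ ε ha hab hR hκ hε
  obtain ⟨c, T1, hc0, hc1, hT1, h1⟩ := X35.core h5 hS hB hA RH A B D hD a b R κ₀ ε ha hab hR hκ hε
  obtain ⟨K, T2, hT2, h2⟩ := hM RH A B a b (ε / 3) ha hab (by positivity)
  have hlog : Tendsto (fun T : ℝ => Real.log T) atTop atTop := Real.tendsto_log_atTop
  have hlll : Tendsto (fun T : ℝ => Real.log (Real.log (Real.log T))) atTop atTop :=
    hlog.comp (hlog.comp hlog)
  have hpow : ∀ᶠ X : ℝ in atTop, Real.log X ^ K ≤ c * X := by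
    have := (Real.isLittleO_pow_log_id_atTop (n := K)).bound (c := c) hc0
    filter_upwards [this, eventually_ge_atTop 1] with X h hX
    simp only [id, Real.norm_eq_abs] at h
    rw [abs_of_nonneg (pow_nonneg (Real.log_nonneg hX) K), abs_of_nonneg (by linarith)] at h
    exact h
  obtain ⟨T3, hT3⟩ := eventually_atTop.1 ((hlog.eventually_ge_atTop 1).and
    ((hlll.eventually_ge_atTop 1).and (hlll.eventually hpow)))
  refine ⟨max T1 (max T2 T3), lt_max_of_lt_left hT1, fun T lam hT hl1 hl2 => ?_⟩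
  have hTa : T1 ≤ T := (le_max_left _ _).trans hT
  have hTb : T2 ≤ T := ((le_max_left _ _).trans (le_max_right _ _)).trans hT
  obtain ⟨e2, e3, e4⟩ := hT3 T (((le_max_right _ _).trans (le_max_right _ _)).trans hT)
  have hlam : 0 < lam := by linarith
  refine h1 T lam hTa hlam hl2 (h2 T (c * lam) hTb ?_ ?_)
  · exact e4.trans (mul_le_mul_of_nonneg_left hl1 hc0.le)
  · have : c * lam ≤ lam := by nlinarith
    nlinarith

end Pool.Agent.Lib.MP_6bc78b_nt.GP.G9
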