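import Pool.Agent.Lib.MP_6bc78b_nt.GP.H62.Defs9

/-! Project GP9+ (MP_6bc78b_nt): the simple zeros of GP9 with a large derivative. Statements. -/

set_option autoImplicit false

open Complex Filter Topology MeasureTheory ArithmeticFunction Set
open scoped ENNReal

namespace Pool.Agent.Lib.MP_6bc78b_nt.GP.G9

open Pool.Agent.Lib.MP_6bc78b_nt.MS Pool.Agent.Lib.MP_6bc78b_nt.MS.P1
open Pool.Agent.Lib.MP_6bc78b_nt.GP Pool.Agent.Lib.MP_6bc78b_nt.GP.G7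

/-- CHB9P: `CHB9Statement` with `|ζ'(1/2 + iγ)| ≥ c log T`. -/
def CHB9PStatement : Prop := RiemannHypothesis → ∃ C0 : ℝ, 1 ≤ C0 ∧ ∀ ε : ℝ, 0 < ε →
  ∃ c : ℝ, 0 < c ∧ ∃ T0 : ℝ, 10 < T0 ∧ ∀ T lam : ℝ, T0 ≤ T →
    C0 * Real.log (Real.log (Real.log T)) ≤ lam → lam ≤ Real.log T →
    volume {t : ℝ | T ≤ t ∧ t ≤ 2 * T ∧
      (({γ : ℝ | |γ - t| < 2 * lam ∧ mz γ = 1 ∧
        c * Real.log T ≤ ‖deriv riemannZeta (1 / 2 + γ * I)‖}.ncard : ℕ) : ℝ) ≤ c * lam} ≤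
      ENNReal.ofReal (ε * T)

/-- FIN9P (from CHB9P): the theorem, with `|Z'(γ)| ≥ c log T`. -/
def CountStatement9p : Prop := RiemannHypothesis → ∃ C0 : ℝ, 1 ≤ C0 ∧ ∀ ε : ℝ, 0 < ε →
  ∃ c : ℝ, 0 < c ∧ ∃ T0 : ℝ, 10 < T0 ∧ ∀ T h : ℝ, T0 ≤ T →
    C0 * Real.log (Real.log (Real.log T)) ≤ h → h ≤ T →
    volume {t : ℝ | 0 ≤ t ∧ t ≤ T ∧
      (({γ : ℝ | t < γ ∧ γ < t + h ∧ zeroMult γ = 1 ∧
        c * Real.log T ≤ |deriv hardyZ γ|}.ncard : ℕ) : ℝ) ≤ c * h} ≤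
      ENNReal.ofReal (ε * T)

end Pool.Agent.Lib.MP_6bc78b_nt.GP.G9
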