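import Pool.Agent.Lib.MP_6bc78b_nt.GP.H35.Fin9q

/-! Project GP10 (MP_6bc78b_nt): windows of bounded length. The last two statements. -/

set_option autoImplicit false

open Complex Filter Topology MeasureTheory ArithmeticFunction Set
open scoped ENNReal

namespace Pool.Agent.Lib.MP_6bc78b_nt.GP.G10

open Pool.Agent.Lib.MP_6bc78b_nt.MS Pool.Agent.Lib.MP_6bc78b_nt.MS.P1
open Pool.Agent.Lib.MP_6bc78b_nt.GP Pool.Agent.Lib.MP_6bc78b_nt.GP.G7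

/-- CHB10: the measure of the centres without a simple zero within `lam`. -/
def Chb10Statement : Prop := RiemannHypothesis → ∀ ε : ℝ, 0 < ε → ∃ lam T0 : ℝ, 0 < lam ∧
  10 < T0 ∧ ∀ T : ℝ, T0 ≤ T →
    volume {t : ℝ | T ≤ t ∧ t ≤ 2 * T ∧ ∀ γ : ℝ, |γ - t| < lam → mz γ ≠ 1} ≤
      ENNReal.ofReal (ε * T)

/-- FIN10 (from CHB10): windows of bounded length, all lengths at once. -/
def Count10Statement : Prop := RiemannHypothesis → ∀ ε : ℝ, 0 < ε → ∃ h₀ : ℝ, 0 < h₀ ∧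
  ∀ T : ℝ, volume {t : ℝ | 0 ≤ t ∧ t ≤ T ∧ ∃ h : ℝ, h₀ ≤ h ∧ h ≤ T ∧
    (({γ : ℝ | t < γ ∧ γ < t + h ∧ zeroMult γ = 1}.ncard : ℕ) : ℝ) ≤ h / h₀} ≤
      ENNReal.ofReal (ε * T)

end Pool.Agent.Lib.MP_6bc78b_nt.GP.G10
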