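import Pool.Agent.Lib.MP_6bc78b_nt.GP.H35.Defs10f

/-! Project GP10, module FIN10: all lengths at once, by the covering lemma of Vitali. -/

set_option autoImplicit false

open Complex Filter Topology MeasureTheory ArithmeticFunction Set
open scoped ENNReal

namespace Pool.Agent.Lib.MP_6bc78b_nt.GP.H35F

open Pool.Agent.Lib.MP_6bc78b_nt Pool.Agent.Lib.MP_6bc78b_nt.MS Pool.Agent.Lib.MP_6bc78b_nt.MS.P1
open Pool.Agent.Lib.MP_6bc78b_nt.GP.G10

/-- Few points of `F` in the window: many bad centres in it. -/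
theorem many10 {U : Set ℝ} {F : Finset ℝ} {t h lam : ℝ} (hlam : 0 < lam)
    (hh : 8 * lam ≤ h) (hF : 8 * lam * (F.card : ℝ) ≤ h)
    (hbad : ∀ s ∈ Ioo (t + lam) (t + h - lam), s ∉ U → ∃ γ ∈ F, |γ - s| < lam) :
    ENNReal.ofReal (h / 4) ≤ volume (U ∩ Ioo t (t + h)) := by
  have hsub : Ioo (t + lam) (t + h - lam) ⊆
      (U ∩ Ioo t (t + h)) ∪ ⋃ γ ∈ F, Ioo (γ - lam) (γ + lam) := by
    intro s hs
    by_cases hsU : s ∈ U
    · exact Or.inl ⟨hsU, by linarith [hs.1], by linarith [hs.2]⟩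
    · obtain ⟨γ, hγ, h1⟩ := hbad s hs hsU
      refine Or.inr (mem_iUnion₂.2 ⟨γ, hγ, ?_⟩)
      have := abs_lt.1 h1
      exact ⟨by linarith [this.2], by linarith [this.1]⟩
  have h1 : volume (⋃ γ ∈ F, Ioo (γ - lam) (γ + lam)) ≤ ENNReal.ofReal (h / 4) := by
    refine (measure_biUnion_finset_le _ _).trans ?_
    have k1 : ∀ γ ∈ F, volume (Ioo (γ - lam) (γ + lam)) = ENNReal.ofReal (2 * lam) := by
      intro γ _
      rw [Real.volume_Ioo]
      congr 1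
      ring
    rw [Finset.sum_congr rfl k1, Finset.sum_const, nsmul_eq_mul, ← ENNReal.ofReal_natCast,
      ← ENNReal.ofReal_mul (Nat.cast_nonneg _)]
    exact ENNReal.ofReal_le_ofReal (by linarith)
  have h2 := (measure_mono (μ := volume) hsub).trans (measure_union_le _ _)
  rw [Real.volume_Ioo] at h2
  have h3 : ENNReal.ofReal (h / 4) + ENNReal.ofReal (h / 4) ≤
      volume (U ∩ Ioo t (t + h)) + ENNReal.ofReal (h / 4) := by
    refine le_trans ?_ (h2.trans (add_le_add le_rfl h1))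
    rw [← ENNReal.ofReal_add (by linarith) (by linarith)]
    exact ENNReal.ofReal_le_ofReal (by linarith)
  exact (ENNReal.add_le_add_iff_right ENNReal.ofReal_ne_top).1 h3

/-- **FIN10.** -/
theorem fin10 (h9 : Chb10Statement) : Count10Statement := by
  intro hRH ε hε
  obtain ⟨lam, T₇, hlam, hT₇, g7⟩ := h9 hRH (ε / 80) (by positivity)
  obtain ⟨h₀, hh₀⟩ : ∃ h₀ : ℝ, h₀ = max (8 * lam) (16 * T₇ / ε) := ⟨_, rfl⟩
  have hh₁ : 8 * lam ≤ h₀ := hh₀ ▸ le_max_left _ _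
  have hh₂ : 16 * T₇ / ε ≤ h₀ := hh₀ ▸ le_max_right _ _
  have hpos : 0 < h₀ := by linarith
  refine ⟨h₀, hpos, fun T => ?_⟩
  by_cases hT : T < h₀
  · refine (measure_mono_null (t := (∅ : Set ℝ)) ?_ measure_empty).le.trans bot_le
    rintro t ⟨-, -, h, h1, h2, -⟩
    linarith
  push Not at hT
  have hTε : 16 * T₇ ≤ T * ε := by
    rw [div_le_iff₀ hε] at hh₂
    exact hh₂.trans (mul_le_mul_of_nonneg_right hT hε.le)
  have hT0 : 0 < T := by linarith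
  -- the bad centres
  obtain ⟨S, hS⟩ : ∃ S : Set ℝ, S = {s : ℝ | ∀ γ : ℝ, |γ - s| < lam → mz γ ≠ 1} := ⟨_, rfl⟩
  obtain ⟨m, hm⟩ : ∃ m : ℝ, m = ε * T / 8 := ⟨_, rfl⟩
  have hm0 : 0 < m := by rw [hm]; positivity
  have hblock : ∀ X : ℝ, m / 2 ≤ X → 2 * X ≤ 2 * T →
      volume (S ∩ Set.Icc X (2 * X)) ≤ ENNReal.ofReal (ε / 80 * X) := by
    intro X hX hXT
    have hX7 : T₇ ≤ X := by
      refine le_trans ?_ hX
      rw [hm]
      linarith
    refine (measure_mono ?_).trans (g7 X hX7)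
    rintro s ⟨hs, hs1, hs2⟩
    rw [hS] at hs
    exact ⟨hs1, hs2, hs⟩
  obtain ⟨n, hn⟩ : ∃ n : ℕ, 2 * T < 2 ^ n * m := by
    obtain ⟨n, hn⟩ := pow_unbounded_of_one_lt (2 * T / m) (by norm_num : (1 : ℝ) < 2)
    refine ⟨n, ?_⟩
    rwa [div_lt_iff₀ hm0] at hn
  have hvol := H27F.halve (by positivity : 0 ≤ ε / 80) hm0 hblock n (2 * T)
    (by positivity) le_rfl hn
  obtain ⟨U, hUd⟩ : ∃ U : Set ℝ, U = toMeasurable volume (S ∩ Set.Icc m (2 * T)) := ⟨_, rfl⟩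
  have hUm : MeasurableSet U := hUd ▸ measurableSet_toMeasurable _ _
  have hUv : volume U ≤ ENNReal.ofReal (ε / 80 * (2 * T)) := by
    rw [hUd, measure_toMeasurable]
    exact hvol
  have hSU : S ∩ Set.Icc m (2 * T) ⊆ U := hUd ▸ subset_toMeasurable _ _
  have hsub : {t : ℝ | 0 ≤ t ∧ t ≤ T ∧ ∃ h : ℝ, h₀ ≤ h ∧ h ≤ T ∧
        (({γ : ℝ | t < γ ∧ γ < t + h ∧ zeroMult γ = 1}.ncard : ℕ) : ℝ) ≤ h / h₀} ⊆
      Set.Icc 0 m ∪ {t : ℝ | ∃ h : ℝ, 0 < h ∧ h ≤ T ∧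
        ENNReal.ofReal (h / 4) ≤ volume (U ∩ Ioo t (t + h))} := by
    rintro t ⟨ht0, ht1, h, hh1, hh2, ht2⟩
    by_cases htm : t ≤ m
    · exact Or.inl ⟨ht0, htm⟩
    push Not at htm
    have hh0 : 0 < h := by linarith
    refine Or.inr ⟨h, hh0, hh2, ?_⟩
    obtain ⟨F, hF⟩ : ∃ F : Finset ℝ, F = (H27F.win_fin t (t + h)).toFinset := ⟨_, rfl⟩
    have hFm : ∀ γ : ℝ, γ ∈ F ↔ t < γ ∧ γ < t + h ∧ zeroMult γ = 1 := fun γ => by
      rw [hF, Set.Finite.mem_toFinset]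
      rfl
    have hcard : (F.card : ℝ) ≤ h / h₀ := by
      rw [hF, ← Set.ncard_eq_toFinset_card _ (H27F.win_fin t (t + h))]
      exact ht2
    have hcard2 : 8 * lam * (F.card : ℝ) ≤ h := by
      rw [le_div_iff₀ hpos] at hcard
      refine le_trans ?_ hcard
      rw [mul_comm]
      exact mul_le_mul_of_nonneg_left hh₁ (Nat.cast_nonneg _)
    refine many10 hlam (by linarith) hcard2 fun s hs hsU => ?_
    have hsS : s ∉ S := fun hsS => hsU (hSU ⟨hsS, by linarith [hs.1], by linarith [hs.2]⟩)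
    rw [hS] at hsS
    have k1 : ∃ γ : ℝ, |γ - s| < lam ∧ mz γ = 1 := by
      by_contra hcon
      push Not at hcon
      exact hsS hcon
    obtain ⟨γ, k2, k3⟩ := k1
    have k4 := abs_lt.1 k2
    exact ⟨γ, (hFm γ).2 ⟨by linarith [hs.1], by linarith [hs.2],
      by rw [← MS.P4.H30.mz_eq]; exact k3⟩, k2⟩
  refine (measure_mono hsub).trans ((measure_union_le _ _).trans ?_)
  rw [Real.volume_Icc, sub_zero]
  refine (add_le_add le_rfl ((winall hUm T).trans (mul_le_mul_right hUv 20))).trans ?_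
  have e4 : (20 : ℝ≥0∞) = ENNReal.ofReal 20 := by norm_num
  rw [e4, ← ENNReal.ofReal_mul (by norm_num), ← ENNReal.ofReal_add hm0.le (by positivity)]
  refine ENNReal.ofReal_le_ofReal ?_
  rw [hm]
  have := mul_pos hε hT0
  nlinarith

end Pool.Agent.Lib.MP_6bc78b_nt.GP.H35F
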