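import Pool.Agent.Lib.MP_6bc78b_nt.GP.H27.Fin6
import Pool.Agent.Lib.MP_6bc78b_nt.GP.H35.Defs9p
import Pool.Agent.Lib.MP_6bc78b_nt.HardyOrder
import Pool.Agent.Lib.MP_6bc78b_nt.MS.P4.H30.Zfac

/-! Project GP9+, module FIN9P: from the centres to all windows, by sub-windows. -/

set_option autoImplicit false

open Complex Filter Topology MeasureTheory ArithmeticFunction Set
open scoped ENNReal

namespace Pool.Agent.Lib.MP_6bc78b_nt.GP.H35F

open Pool.Agent.Lib.MP_6bc78b_nt Pool.Agent.Lib.MP_6bc78b_nt.MS Pool.Agent.Lib.MP_6bc78b_nt.MS.P1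
open Pool.Agent.Lib.MP_6bc78b_nt.GP.G9

/-- The derivatives of `Z` and of `ζ` have the same size at a zero. -/
theorem dhz9 {γ : ℝ} (hz0 : riemannZeta (1 / 2 + γ * I) = 0) :
    |deriv hardyZ γ| = ‖deriv riemannZeta (1 / 2 + γ * I)‖ := by
  have hZ : HasDerivAt hardyZ (deriv hardyZ γ) γ :=
    (analyticAt_hardyZ γ).differentiableAt.hasDerivAt
  have hne : (1 / 2 + γ * I : ℂ) ≠ 1 := by
    intro h
    have := congrArg Complex.re h
    simp at this
  have h0 : hardyZ γ = 0 := by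
    have := abs_hardyZ γ
    rw [hz0, norm_zero] at this
    exact abs_eq_zero.1 this
  have hline : HasDerivAt (fun x : ℝ => (1 / 2 + x * I : ℂ)) I γ := by
    have h1 : HasDerivAt (fun x : ℝ => ((x : ℝ) : ℂ)) 1 γ := Complex.ofRealCLM.hasDerivAt
    have h2 := (h1.mul_const I).const_add (1 / 2 : ℂ)
    simpa using h2
  have hζ : HasDerivAt (fun x : ℝ => riemannZeta (1 / 2 + x * I))
      (deriv riemannZeta (1 / 2 + γ * I) * I) γ := by
    have h1 : HasDerivAt riemannZeta (deriv riemannZeta (1 / 2 + γ * I)) (1 / 2 + γ * I) :=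
      (differentiableAt_riemannZeta hne).hasDerivAt
    exact HasDerivAt.comp γ h1 hline
  have l1 : Tendsto (fun x : ℝ => |slope hardyZ γ x|) (𝓝[≠] γ) (𝓝 |deriv hardyZ γ|) :=
    (hasDerivAt_iff_tendsto_slope.1 hZ).abs
  have l2 : Tendsto (fun x : ℝ => ‖slope (fun x : ℝ => riemannZeta (1 / 2 + x * I)) γ x‖)
      (𝓝[≠] γ) (𝓝 ‖deriv riemannZeta (1 / 2 + γ * I) * I‖) :=
    (hasDerivAt_iff_tendsto_slope.1 hζ).norm
  have heq : (fun x : ℝ => |slope hardyZ γ x|) =
      fun x : ℝ => ‖slope (fun x : ℝ => riemannZeta (1 / 2 + x * I)) γ x‖ := by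
    funext x
    rw [slope_def_module, slope_def_module, h0, hz0, sub_zero, sub_zero, norm_smul, smul_eq_mul,
      abs_mul, abs_hardyZ, Real.norm_eq_abs]
  rw [heq] at l1
  have := tendsto_nhds_unique l1 l2
  rw [this, norm_mul, norm_I, mul_one]

/-- The `t` for which a fixed part of the window `(t, t + h)` lies in `U`. -/
theorem wins {U : Set ℝ} {h : ℝ} (hh : 0 < h) :
    volume {t : ℝ | ENNReal.ofReal (h / 4) ≤ volume (U ∩ Ioo t (t + h))} ≤ 4 * volume U := by
  have hD : MeasurableSet {p : ℝ × ℝ | p.1 < p.2 ∧ p.2 < p.1 + h} :=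
    ((isOpen_lt continuous_fst continuous_snd).inter
      (isOpen_lt continuous_snd (continuous_fst.add continuous_const))).measurableSet
  let f : ℝ → ℝ → ℝ≥0∞ := fun t s =>
    ({p : ℝ × ℝ | p.1 < p.2 ∧ p.2 < p.1 + h}.indicator (fun _ => (1 : ℝ≥0∞))) (t, s)
  have hf : Measurable (Function.uncurry f) := by
    have : Function.uncurry f =
        {p : ℝ × ℝ | p.1 < p.2 ∧ p.2 < p.1 + h}.indicator (fun _ => (1 : ℝ≥0∞)) := by
      funext p
      rfl
    rw [this]
    exact measurable_const.indicator hD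
  have h1 : ∀ t : ℝ, volume (U ∩ Ioo t (t + h)) = ∫⁻ s in U, f t s := by
    intro t
    have e : (fun s => f t s) = (Ioo t (t + h)).indicator (fun _ => (1 : ℝ≥0∞)) := by
      funext s
      by_cases hs : s ∈ Ioo t (t + h)
      · rw [indicator_of_mem hs]
        exact indicator_of_mem (show (t, s) ∈ {p : ℝ × ℝ | p.1 < p.2 ∧ p.2 < p.1 + h} from hs) _
      · rw [indicator_of_notMem hs]
        exact indicator_of_notMem
          (show (t, s) ∉ {p : ℝ × ℝ | p.1 < p.2 ∧ p.2 < p.1 + h} from hs) _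
    rw [e, lintegral_indicator measurableSet_Ioo, setLIntegral_one,
      Measure.restrict_apply measurableSet_Ioo, inter_comm]
  have h2 : ∀ s : ℝ, ∫⁻ t, f t s = ENNReal.ofReal h := by
    intro s
    have e : (fun t => f t s) = (Ioo (s - h) s).indicator (fun _ => (1 : ℝ≥0∞)) := by
      funext t
      by_cases hs : t ∈ Ioo (s - h) s
      · rw [indicator_of_mem hs]
        exact indicator_of_mem (show (t, s) ∈ {p : ℝ × ℝ | p.1 < p.2 ∧ p.2 < p.1 + h} from
          ⟨hs.2, by linarith [hs.1]⟩) _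
      · rw [indicator_of_notMem hs]
        refine indicator_of_notMem (fun hm => hs ?_) _
        exact ⟨by linarith [hm.2], hm.1⟩
    rw [e, lintegral_indicator measurableSet_Ioo, setLIntegral_one, Real.volume_Ioo]
    congr 1
    ring
  have hmeas : Measurable fun t : ℝ => volume (U ∩ Ioo t (t + h)) := by
    simp_rw [h1]
    exact hf.lintegral_prod_right'
  have h3 : ∫⁻ t, volume (U ∩ Ioo t (t + h)) = ENNReal.ofReal h * volume U := by
    simp_rw [h1]
    rw [lintegral_lintegral_swap hf.aemeasurable]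
    simp_rw [h2]
    rw [setLIntegral_const]
  have h4 := mul_meas_ge_le_lintegral (μ := volume) hmeas (ENNReal.ofReal (h / 4))
  rw [h3] at h4
  have e4 : ENNReal.ofReal h = 4 * ENNReal.ofReal (h / 4) := by
    have : h = 4 * (h / 4) := by ring
    conv_lhs => rw [this]
    rw [ENNReal.ofReal_mul (by norm_num)]
    norm_num
  rw [e4, mul_comm (4 : ℝ≥0∞), mul_assoc] at h4
  have hne : ENNReal.ofReal (h / 4) ≠ 0 := by
    rw [Ne, ENNReal.ofReal_eq_zero]
    push Not
    linarith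
  exact (ENNReal.mul_le_mul_iff_right hne ENNReal.ofReal_ne_top).1 h4

/-- Few points of `F` in the window: many bad centres in it. -/
theorem many {U : Set ℝ} (hU : MeasurableSet U) {F : Finset ℝ} {t h lam c₇ : ℝ} (hlam : 0 < lam)
    (hh : 8 * lam ≤ h) (hc₇ : 0 < c₇) (hF : 16 * (F.card : ℝ) ≤ c₇ * h)
    (hbad : ∀ s ∈ Ioo (t + 2 * lam) (t + h - 2 * lam), s ∉ U →
      c₇ * lam < ((F.filter fun γ => |γ - s| < 2 * lam).card : ℝ)) :
    ENNReal.ofReal (h / 4) ≤ volume (U ∩ Ioo t (t + h)) := by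
  classical
  obtain ⟨A, hA⟩ : ∃ A : Set ℝ, A = Ioo (t + 2 * lam) (t + h - 2 * lam) := ⟨_, rfl⟩
  have hAm : MeasurableSet A := hA ▸ measurableSet_Ioo
  have h1 : ENNReal.ofReal (c₇ * lam) * volume (A \ U) ≤
      ENNReal.ofReal ((F.card : ℝ) * (4 * lam)) := by
    have k1 : ENNReal.ofReal (c₇ * lam) * volume (A \ U) ≤
        ∫⁻ s in A \ U, ∑ γ ∈ F, (Ioo (γ - 2 * lam) (γ + 2 * lam)).indicator
          (fun _ => (1 : ℝ≥0∞)) s := by
      rw [← setLIntegral_const]
      refine setLIntegral_mono' (hAm.diff hU) fun s hs => ?_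
      have k2 := hbad s (hA ▸ hs.1) hs.2
      have k3 : ∑ γ ∈ F, (Ioo (γ - 2 * lam) (γ + 2 * lam)).indicator (fun _ => (1 : ℝ≥0∞)) s =
          (((F.filter fun γ => |γ - s| < 2 * lam).card : ℕ) : ℝ≥0∞) := by
        rw [Finset.card_filter, Nat.cast_sum]
        refine Finset.sum_congr rfl fun γ _ => ?_
        by_cases hγ : |γ - s| < 2 * lam
        · rw [if_pos hγ, indicator_of_mem]
          · simp
          · have := abs_lt.1 hγ
            exact ⟨by linarith, by linarith⟩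
        · rw [if_neg hγ, indicator_of_notMem]
          · simp
          · intro hm
            exact hγ (abs_lt.2 ⟨by linarith [hm.2], by linarith [hm.1]⟩)
      rw [k3, ← ENNReal.ofReal_natCast]
      exact ENNReal.ofReal_le_ofReal k2.le
    refine k1.trans ((setLIntegral_le_lintegral _ _).trans ?_)
    rw [lintegral_finsetSum _ fun γ _ => measurable_const.indicator measurableSet_Ioo]
    have k4 : ∀ γ ∈ F, ∫⁻ s, (Ioo (γ - 2 * lam) (γ + 2 * lam)).indicator
        (fun _ => (1 : ℝ≥0∞)) s = ENNReal.ofReal (4 * lam) := by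
      intro γ _
      rw [lintegral_indicator measurableSet_Ioo, setLIntegral_one, Real.volume_Ioo]
      congr 1
      ring
    have k5 : ENNReal.ofReal ((F.card : ℝ) * (4 * lam)) =
        (F.card : ℝ≥0∞) * ENNReal.ofReal (4 * lam) := by
      rw [ENNReal.ofReal_mul (Nat.cast_nonneg _), ENNReal.ofReal_natCast]
    rw [Finset.sum_congr rfl k4, Finset.sum_const, nsmul_eq_mul, k5]
  have h2 : volume (A \ U) ≤ ENNReal.ofReal (h / 4) := by
    have k5 : ENNReal.ofReal ((F.card : ℝ) * (4 * lam)) ≤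
        ENNReal.ofReal (c₇ * lam) * ENNReal.ofReal (h / 4) := by
      rw [← ENNReal.ofReal_mul (by positivity)]
      refine ENNReal.ofReal_le_ofReal ?_
      have := mul_le_mul_of_nonneg_right hF hlam.le
      linarith
    have hne : ENNReal.ofReal (c₇ * lam) ≠ 0 := by
      rw [Ne, ENNReal.ofReal_eq_zero]
      push Not
      positivity
    exact (ENNReal.mul_le_mul_iff_right hne ENNReal.ofReal_ne_top).1 (h1.trans k5)
  have h3 : ENNReal.ofReal (h - 4 * lam) = volume A := by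
    rw [hA, Real.volume_Ioo]
    congr 1
    ring
  have h4 : volume A = volume (A ∩ U) + volume (A \ U) := (measure_inter_add_sdiff A hU).symm
  have h5 : volume (A ∩ U) ≤ volume (U ∩ Ioo t (t + h)) := by
    refine measure_mono ?_
    rintro s ⟨hs1, hs2⟩
    rw [hA] at hs1
    exact ⟨hs2, by linarith [hs1.1], by linarith [hs1.2]⟩
  have h6 : ENNReal.ofReal (h / 4) + ENNReal.ofReal (h / 4) ≤ ENNReal.ofReal (h - 4 * lam) := by
    rw [← ENNReal.ofReal_add (by linarith) (by linarith)]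
    exact ENNReal.ofReal_le_ofReal (by linarith)
  have h7 : ENNReal.ofReal (h / 4) + ENNReal.ofReal (h / 4) ≤
      volume (U ∩ Ioo t (t + h)) + ENNReal.ofReal (h / 4) :=
    h6.trans ((h3.trans h4).le.trans (add_le_add h5 h2))
  exact (ENNReal.add_le_add_iff_right ENNReal.ofReal_ne_top).1 h7

/-- **FIN9P.** -/
theorem fin9p (h9 : CHB9PStatement) : CountStatement9p := by
  intro hRH
  obtain ⟨C0, hC0, g9⟩ := h9 hRH
  refine ⟨8 * C0, by linarith, fun ε hε => ?_⟩
  obtain ⟨c₇, hc₇, T₇, hT₇, g7⟩ := g9 (ε / 16) (by positivity)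
  have hlog : Tendsto Real.log atTop atTop := Real.tendsto_log_atTop
  obtain ⟨T₅, h5⟩ := eventually_atTop.1 ((hlog.comp (hlog.comp hlog)).eventually_ge_atTop 1)
  obtain ⟨T₂, h2⟩ := eventually_atTop.1 ((hlog.comp hlog).eventually
    ((Real.isLittleO_pow_log_id_atTop (n := 1)).bound (c := 1 / (2 * C0)) (by positivity)))
  refine ⟨c₇ / 16, by positivity, max T₇ (max T₅ (max T₂ (max (16 * (T₇ + T₅) / ε)
    ((16 / ε) ^ 2)))), lt_max_of_lt_left hT₇, fun T h hT hh1 hh2 => ?_⟩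
  have hTT₇ : T₇ ≤ T := (le_max_left _ _).trans hT
  have hr1 := (le_max_right _ _).trans hT
  have hTT₅ : T₅ ≤ T := (le_max_left _ _).trans hr1
  have hr2 := (le_max_right _ _).trans hr1
  have hTT₂ : T₂ ≤ T := (le_max_left _ _).trans hr2
  have hr3 := (le_max_right _ _).trans hr2
  have hTε : 16 * (T₇ + T₅) / ε ≤ T := (le_max_left _ _).trans hr3
  have hTε2 : (16 / ε) ^ 2 ≤ T := (le_max_right _ _).trans hr3
  clear hr1 hr2 hr3 hT
  have hT10 : 10 < T := by linarith
  have hT0 : 0 < T := by linarith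
  have hlll : 1 ≤ Real.log (Real.log (Real.log T)) := h5 T hTT₅
  obtain ⟨L, hLd⟩ : ∃ L : ℝ, L = Real.log T := ⟨_, rfl⟩
  have hL1 : 1 < L := by
    rw [hLd, ← Real.log_exp 1]
    refine Real.log_lt_log (Real.exp_pos _) ?_
    have := Real.exp_one_lt_d9
    linarith
  have hL0 : 0 < L := by linarith
  have hLL : 0 < Real.log L := Real.log_pos hL1
  -- `8 C0 log log log T ≤ 4 log T`
  have hψ : 8 * C0 * Real.log (Real.log L) ≤ 4 * L := by
    have h3 := h2 T hTT₂
    simp only [Function.comp_apply, pow_one, id] at h3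
    rw [← hLd, Real.norm_of_nonneg (by rw [← hLd] at hlll; linarith),
      Real.norm_of_nonneg hLL.le] at h3
    have h7' : Real.log L ≤ L := by
      have := Real.log_le_sub_one_of_pos hL0
      linarith
    have h8' : 8 * C0 * Real.log (Real.log L) ≤ 8 * C0 * (1 / (2 * C0) * Real.log L) :=
      mul_le_mul_of_nonneg_left h3 (by linarith)
    have h9' : 8 * C0 * (1 / (2 * C0) * Real.log L) = 4 * Real.log L := by
      have : C0 ≠ 0 := by linarith
      field_simp
      ring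
    rw [h9'] at h8'
    linarith
  rw [← hLd] at hh1 hlll ⊢
  have hψ0 : 0 < 8 * C0 * Real.log (Real.log L) := by positivity
  have hh0 : 0 < h := lt_of_lt_of_le hψ0 hh1
  -- the length of the sub-windows
  obtain ⟨w, hw⟩ : ∃ w : ℝ, w = min h (4 * L) := ⟨_, rfl⟩
  have hwh : w ≤ h := hw ▸ min_le_left _ _
  have hwL : w ≤ 4 * L := hw ▸ min_le_right _ _
  have hψw : 8 * C0 * Real.log (Real.log L) ≤ w := by
    rw [hw]
    exact le_min hh1 hψ
  have hw0 : 0 < w := lt_of_lt_of_le hψ0 hψw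
  obtain ⟨lam, hlamd⟩ : ∃ lam : ℝ, lam = w / 8 := ⟨_, rfl⟩
  have hlam0 : 0 < lam := by rw [hlamd]; positivity
  have h8lam : 8 * lam ≤ h := by rw [hlamd]; linarith
  -- the bad centres
  obtain ⟨S, hS⟩ : ∃ S : Set ℝ, S = {s : ℝ | (({γ : ℝ | |γ - s| < 2 * lam ∧
    mz γ = 1 ∧ c₇ * L / 2 ≤ ‖deriv riemannZeta (1 / 2 + γ * I)‖}.ncard : ℕ) : ℝ) ≤
      c₇ * lam} := ⟨_, rfl⟩
  obtain ⟨m, hm⟩ : ∃ m : ℝ, m = ε * T / 8 := ⟨_, rfl⟩
  have hm0 : 0 < m := by rw [hm]; positivity
  have hblock : ∀ X : ℝ, m / 2 ≤ X → 2 * X ≤ 2 * T →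
      volume (S ∩ Set.Icc X (2 * X)) ≤ ENNReal.ofReal (ε / 16 * X) := by
    intro X hX hXT
    rw [div_le_iff₀ hε] at hTε
    have hX75 : T₇ + T₅ ≤ X := by
      refine le_trans ?_ hX
      rw [hm]
      linarith
    have hT₅0 : 0 < T₅ ∨ T₅ ≤ 0 := lt_or_ge _ _
    have hX7 : T₇ ≤ X := by
      by_contra hcon
      push Not at hcon
      have hT5 : T₅ < 0 := by linarith
      -- then `h5` holds at a number below `10`
      have k1 := h5 0 (by linarith)
      simp only [Function.comp_apply, Real.log_zero] at k1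
      linarith
    have hX0 : 0 < X := by linarith
    have hlX : L / 2 ≤ Real.log X := by
      have e1 : L / 2 = Real.log (Real.sqrt T) := by rw [Real.log_sqrt hT0.le, hLd]
      rw [e1]
      refine Real.log_le_log (Real.sqrt_pos.2 hT0) ?_
      refine le_trans ?_ hX
      rw [hm]
      have hs : 16 / ε ≤ Real.sqrt T := Real.le_sqrt_of_sq_le hTε2
      rw [div_le_iff₀ hε] at hs
      have hss : Real.sqrt T * Real.sqrt T = T := Real.mul_self_sqrt hT0.le
      have hs0 : 0 < Real.sqrt T := Real.sqrt_pos.2 hT0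
      have e2 : Real.sqrt T * 16 ≤ Real.sqrt T * (Real.sqrt T * ε) :=
        mul_le_mul_of_nonneg_left hs hs0.le
      have e3 : Real.sqrt T * (Real.sqrt T * ε) = T * ε := by rw [← mul_assoc, hss]
      linarith
    have hX10 : 10 < X := by linarith
    have hlX1 : 1 < Real.log X := by
      rw [← Real.log_exp 1]
      refine Real.log_lt_log (Real.exp_pos _) ?_
      have := Real.exp_one_lt_d9
      linarith
    have hmono : Real.log (Real.log (Real.log X)) ≤ Real.log (Real.log L) := by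
      refine Real.log_le_log (Real.log_pos hlX1) (Real.log_le_log (by linarith) ?_)
      rw [hLd]
      exact Real.log_le_log hX0 (by linarith)
    have h1 := g7 X lam hX7 (by
      have k1 := mul_le_mul_of_nonneg_left hmono (by linarith : 0 ≤ C0)
      rw [hlamd]
      linarith) (by rw [hlamd]; linarith)
    refine (measure_mono ?_).trans h1
    rintro s ⟨hs, hs1, hs2⟩
    rw [hS] at hs
    refine ⟨hs1, hs2, le_trans ?_ hs⟩
    have hfin : {γ : ℝ | |γ - s| < 2 * lam ∧ mz γ = 1 ∧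
        c₇ * L / 2 ≤ ‖deriv riemannZeta (1 / 2 + γ * I)‖}.Finite := by
      refine (H27F.win_fin (s - 2 * lam) (s + 2 * lam)).subset ?_
      rintro γ ⟨k1, k2, -⟩
      rw [abs_lt] at k1
      exact ⟨by linarith [k1.1], by linarith [k1.2], by rw [← MS.P4.H30.mz_eq]; exact k2⟩
    refine Nat.cast_le.2 (Set.ncard_le_ncard ?_ hfin)
    rintro γ ⟨k1, k2, k3⟩
    refine ⟨k1, k2, le_trans ?_ k3⟩
    have := mul_le_mul_of_nonneg_left hlX hc₇.le
    linarith
  obtain ⟨n, hn⟩ : ∃ n : ℕ, 2 * T < 2 ^ n * m := by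
    obtain ⟨n, hn⟩ := pow_unbounded_of_one_lt (2 * T / m) (by norm_num : (1 : ℝ) < 2)
    refine ⟨n, ?_⟩
    rwa [div_lt_iff₀ hm0] at hn
  have hvol := H27F.halve (by positivity : 0 ≤ ε / 16) hm0 hblock n (2 * T)
    (by positivity) le_rfl hn
  obtain ⟨U, hUd⟩ : ∃ U : Set ℝ, U = toMeasurable volume (S ∩ Set.Icc m (2 * T)) := ⟨_, rfl⟩
  have hUm : MeasurableSet U := hUd ▸ measurableSet_toMeasurable _ _
  have hUv : volume U ≤ ENNReal.ofReal (ε / 16 * (2 * T)) := by
    rw [hUd, measure_toMeasurable]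
    exact hvol
  have hSU : S ∩ Set.Icc m (2 * T) ⊆ U := hUd ▸ subset_toMeasurable _ _
  have hsub : {t : ℝ | 0 ≤ t ∧ t ≤ T ∧
        (({γ : ℝ | t < γ ∧ γ < t + h ∧ zeroMult γ = 1 ∧
          c₇ / 16 * L ≤ |deriv hardyZ γ|}.ncard : ℕ) : ℝ) ≤ c₇ / 16 * h} ⊆
      Set.Icc 0 m ∪ {t : ℝ | ENNReal.ofReal (h / 4) ≤ volume (U ∩ Ioo t (t + h))} := by
    rintro t ⟨ht0, ht1, ht2⟩
    by_cases htm : t ≤ m
    · exact Or.inl ⟨ht0, htm⟩
    push Not at htm
    refine Or.inr ?_
    have hfin1 : {γ : ℝ | t < γ ∧ γ < t + h ∧ zeroMult γ = 1 ∧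
        c₇ / 16 * L ≤ |deriv hardyZ γ|}.Finite :=
      (H27F.win_fin t (t + h)).subset fun γ hγ => ⟨hγ.1, hγ.2.1, hγ.2.2.1⟩
    obtain ⟨F, hF⟩ : ∃ F : Finset ℝ, F = hfin1.toFinset := ⟨_, rfl⟩
    have hFm : ∀ γ : ℝ, γ ∈ F ↔ t < γ ∧ γ < t + h ∧ zeroMult γ = 1 ∧
        c₇ / 16 * L ≤ |deriv hardyZ γ| := fun γ => by
      rw [hF, Set.Finite.mem_toFinset]
      rfl
    have hcard : (F.card : ℝ) ≤ c₇ / 16 * h := by
      rw [hF, ← Set.ncard_eq_toFinset_card _ hfin1]
      exact ht2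
    refine many hUm hlam0 h8lam hc₇ (F := F) (by linarith) fun s hs hsU => ?_
    have hsS : s ∉ S := fun hsS => hsU (hSU ⟨hsS, by linarith [hs.1], by linarith [hs.2]⟩)
    rw [hS] at hsS
    have k1 : c₇ * lam < (({γ : ℝ | |γ - s| < 2 * lam ∧ mz γ = 1 ∧
        c₇ * L / 2 ≤ ‖deriv riemannZeta (1 / 2 + γ * I)‖}.ncard : ℕ) : ℝ) := not_le.1 hsS
    refine lt_of_lt_of_le k1 ?_
    have k2 : {γ : ℝ | |γ - s| < 2 * lam ∧ mz γ = 1 ∧
        c₇ * L / 2 ≤ ‖deriv riemannZeta (1 / 2 + γ * I)‖} ⊆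
        ((F.filter fun γ => |γ - s| < 2 * lam : Finset ℝ) : Set ℝ) := by
      rintro γ ⟨k3, k4, k5⟩
      rw [Finset.coe_filter]
      have k6 := abs_lt.1 k3
      have k7 : zeroMult γ = 1 := by rw [← MS.P4.H30.mz_eq]; exact k4
      refine ⟨(hFm γ).2 ⟨by linarith [hs.1], by linarith [hs.2], k7, ?_⟩, k3⟩
      rw [dhz9 (H27F.zero_of_zeroMult k7)]
      refine le_trans ?_ k5
      have := mul_pos hc₇ hL0
      linarith
    have k8 := Set.ncard_le_ncard k2 (Finset.finite_toSet _)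
    rw [Set.ncard_coe_finset] at k8
    exact_mod_cast k8
  refine (measure_mono hsub).trans ((measure_union_le _ _).trans ?_)
  rw [Real.volume_Icc, sub_zero]
  refine (add_le_add le_rfl ((wins hh0).trans (mul_le_mul_right hUv 4))).trans ?_
  have e4 : (4 : ℝ≥0∞) = ENNReal.ofReal 4 := by norm_num
  rw [e4, ← ENNReal.ofReal_mul (by norm_num), ← ENNReal.ofReal_add hm0.le (by positivity)]
  refine ENNReal.ofReal_le_ofReal ?_
  rw [hm]
  have := mul_pos hε hT0
  nlinarith

end Pool.Agent.Lib.MP_6bc78b_nt.GP.H35F
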