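import Pool.Agent.Lib.MP_6bc78b_nt.GP.H35.Fin9p

/-! Project GP9+, module FIN9Q: all lengths at once, by the covering lemma of Vitali. -/

set_option autoImplicit false

open Complex Filter Topology MeasureTheory ArithmeticFunction Set
open scoped ENNReal

namespace Pool.Agent.Lib.MP_6bc78b_nt.GP.G9

open Pool.Agent.Lib.MP_6bc78b_nt.MS Pool.Agent.Lib.MP_6bc78b_nt.MS.P1
open Pool.Agent.Lib.MP_6bc78b_nt.GP Pool.Agent.Lib.MP_6bc78b_nt.GP.G7

/-- FIN9Q (from CHB9P): `CountStatement9p` for all lengths `h` at once. -/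
def CountStatement9q : Prop := RiemannHypothesis → ∃ C0 : ℝ, 1 ≤ C0 ∧ ∀ ε : ℝ, 0 < ε →
  ∃ c : ℝ, 0 < c ∧ ∃ T0 : ℝ, 10 < T0 ∧ ∀ T : ℝ, T0 ≤ T →
    volume {t : ℝ | 0 ≤ t ∧ t ≤ T ∧ ∃ h : ℝ, C0 * Real.log (Real.log (Real.log T)) ≤ h ∧ h ≤ T ∧
      (({γ : ℝ | t < γ ∧ γ < t + h ∧ zeroMult γ = 1 ∧
        c * Real.log T ≤ |deriv hardyZ γ|}.ncard : ℕ) : ℝ) ≤ c * h} ≤
      ENNReal.ofReal (ε * T)

end Pool.Agent.Lib.MP_6bc78b_nt.GP.G9

namespace Pool.Agent.Lib.MP_6bc78b_nt.GP.H35F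

open Pool.Agent.Lib.MP_6bc78b_nt Pool.Agent.Lib.MP_6bc78b_nt.MS Pool.Agent.Lib.MP_6bc78b_nt.MS.P1
open Pool.Agent.Lib.MP_6bc78b_nt.GP.G9

/-- The `t` for which a fixed part of some window `(t, t + h)` lies in `U`. -/
theorem winall {U : Set ℝ} (hU : MeasurableSet U) (R : ℝ) :
    volume {t : ℝ | ∃ h : ℝ, 0 < h ∧ h ≤ R ∧
      ENNReal.ofReal (h / 4) ≤ volume (U ∩ Ioo t (t + h))} ≤ 20 * volume U := by
  obtain ⟨B, hB⟩ : ∃ B : Set (ℝ × ℝ), B = {p : ℝ × ℝ | 0 < p.2 ∧ p.2 ≤ R ∧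
    ENNReal.ofReal (p.2 / 4) ≤ volume (U ∩ Ioo p.1 (p.1 + p.2))} := ⟨_, rfl⟩
  obtain ⟨u, huB, hdisj, hcov⟩ := Vitali.exists_disjoint_subfamily_covering_enlargement_closedBall
    B (fun p => p.1 + p.2 / 2) (fun p => p.2 / 2) (R / 2) (fun p hp => by
      rw [hB] at hp
      linarith [hp.2.1]) 5 (by norm_num)
  have hBm : ∀ p ∈ B, 0 < p.2 ∧ p.2 ≤ R ∧
      ENNReal.ofReal (p.2 / 4) ≤ volume (U ∩ Ioo p.1 (p.1 + p.2)) := fun p hp => by
    rw [hB] at hp
    exact hp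
  have hcount : u.Countable := by
    refine hdisj.countable_of_nonempty_interior fun p hp => ?_
    have h1 := (hBm p (huB hp)).1
    rw [interior_closedBall _ (by positivity)]
    exact ⟨p.1 + p.2 / 2, Metric.mem_ball_self (by positivity)⟩
  have hsub : {t : ℝ | ∃ h : ℝ, 0 < h ∧ h ≤ R ∧
      ENNReal.ofReal (h / 4) ≤ volume (U ∩ Ioo t (t + h))} ⊆
      ⋃ p ∈ u, Metric.closedBall (p.1 + p.2 / 2) (5 * (p.2 / 2)) := by
    rintro t ⟨h, h1, h2, h3⟩
    obtain ⟨b, hb, hb2⟩ := hcov (t, h) (by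
      rw [hB]
      exact ⟨h1, h2, h3⟩)
    refine mem_iUnion₂.2 ⟨b, hb, hb2 ?_⟩
    show t ∈ Metric.closedBall (t + h / 2) (h / 2)
    rw [Metric.mem_closedBall, Real.dist_eq]
    have e : t - (t + h / 2) = -(h / 2) := by ring
    rw [e, abs_neg, abs_of_pos (by positivity)]
  refine (measure_mono hsub).trans ((measure_biUnion_le _ hcount _).trans ?_)
  have h1 : ∀ p : u, volume (Metric.closedBall ((p : ℝ × ℝ).1 + (p : ℝ × ℝ).2 / 2)
      (5 * ((p : ℝ × ℝ).2 / 2))) ≤ 20 * volume (U ∩ Metric.closedBall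
        ((p : ℝ × ℝ).1 + (p : ℝ × ℝ).2 / 2) ((p : ℝ × ℝ).2 / 2)) := by
    intro p
    obtain ⟨k1, -, k3⟩ := hBm p (huB p.2)
    rw [Real.volume_closedBall]
    have e : 2 * (5 * ((p : ℝ × ℝ).2 / 2)) = 20 * ((p : ℝ × ℝ).2 / 4) := by ring
    rw [e, ENNReal.ofReal_mul (by norm_num)]
    have e20 : ENNReal.ofReal 20 = 20 := by norm_num
    rw [e20]
    refine mul_le_mul_right (k3.trans (measure_mono ?_)) 20
    rintro s ⟨s1, s2, s3⟩
    refine ⟨s1, ?_⟩
    rw [Metric.mem_closedBall, Real.dist_eq, abs_le]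
    constructor <;> linarith
  refine (ENNReal.tsum_le_tsum h1).trans ?_
  rw [ENNReal.tsum_mul_left]
  refine mul_le_mul_right ?_ 20
  have h2 : ∑' p : u, volume (U ∩ Metric.closedBall ((p : ℝ × ℝ).1 + (p : ℝ × ℝ).2 / 2)
      ((p : ℝ × ℝ).2 / 2)) = volume (⋃ p ∈ u, U ∩ Metric.closedBall (p.1 + p.2 / 2) (p.2 / 2)) := by
    rw [measure_biUnion hcount (fun p hp q hq hpq => ?_)
      (fun p _ => hU.inter Metric.isClosed_closedBall.measurableSet)]
    exact (hdisj hp hq hpq).mono inter_subset_right inter_subset_right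
  rw [h2]
  exact measure_mono (iUnion₂_subset fun p _ => inter_subset_left)

/-- **FIN9Q.** -/
theorem fin9q (h9 : CHB9PStatement) : CountStatement9q := by
  intro hRH
  obtain ⟨C0, hC0, g9⟩ := h9 hRH
  refine ⟨8 * C0, by linarith, fun ε hε => ?_⟩
  obtain ⟨c₇, hc₇, T₇, hT₇, g7⟩ := g9 (ε / 80) (by positivity)
  have hlog : Tendsto Real.log atTop atTop := Real.tendsto_log_atTop
  obtain ⟨T₅, h5⟩ := eventually_atTop.1 ((hlog.comp (hlog.comp hlog)).eventually_ge_atTop 1)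
  obtain ⟨T₂, h2⟩ := eventually_atTop.1 ((hlog.comp hlog).eventually
    ((Real.isLittleO_pow_log_id_atTop (n := 1)).bound (c := 1 / (2 * C0)) (by positivity)))
  refine ⟨c₇ / 16, by positivity, max T₇ (max T₅ (max T₂ (max (16 * (T₇ + T₅) / ε)
    ((16 / ε) ^ 2)))), lt_max_of_lt_left hT₇, fun T hT => ?_⟩
  have hTT₇ : T₇ ≤ T := (le_max_left _ _).trans hT
  have hr1 := (le_max_right _ _).trans hT
  have hTT₅ : T₅ ≤ T := (le_max_left _ _).trans hr1
  have hr2 := (le_max_right _ _).trans hr1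
  have hTT₂ : T₂ ≤ T := (le_max_left _ _).trans hr2
  have hr3 := (le_max_right _ _).trans hr2
  have hTε : 16 * (T₇ + T₅) / ε ≤ T := (le_max_left _ _).trans hr3
  have hTε2 : (16 / ε) ^ 2 ≤ T := (le_max_right _ _).trans hr3
  clear hr1 hr2 hr3 hT
  have hT10 : 10 < T := by linarith
  have hT0 : 0 < T := by linarith
  have hlll : 1 ≤ Real.log (Real.log (Real.log T)) := h5 T hTT₅
  obtain ⟨L, hLd⟩ : ∃ L : ℝ, L = Real.log T := ⟨_, rfl⟩
  have hL1 : 1 < L := by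
    rw [hLd, ← Real.log_exp 1]
    refine Real.log_lt_log (Real.exp_pos _) ?_
    have := Real.exp_one_lt_d9
    linarith
  have hL0 : 0 < L := by linarith
  have hLL : 0 < Real.log L := Real.log_pos hL1
  -- `8 C0 log log log T ≤ 4 log T`
  have hψ : 8 * C0 * Real.log (Real.log L) ≤ 4 * L := by
    have h3 := h2 T hTT₂
    simp only [Function.comp_apply, pow_one, id] at h3
    rw [← hLd, Real.norm_of_nonneg (by rw [← hLd] at hlll; linarith),
      Real.norm_of_nonneg hLL.le] at h3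
    have h7' : Real.log L ≤ L := by
      have := Real.log_le_sub_one_of_pos hL0
      linarith
    have h8' : 8 * C0 * Real.log (Real.log L) ≤ 8 * C0 * (1 / (2 * C0) * Real.log L) :=
      mul_le_mul_of_nonneg_left h3 (by linarith)
    have h9' : 8 * C0 * (1 / (2 * C0) * Real.log L) = 4 * Real.log L := by
      have : C0 ≠ 0 := by linarith
      field_simp
      ring
    rw [h9'] at h8'
    linarith
  rw [← hLd] at hlll ⊢
  have hψ0 : 0 < 8 * C0 * Real.log (Real.log L) := by positivity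
  obtain ⟨lam, hlamd⟩ : ∃ lam : ℝ, lam = C0 * Real.log (Real.log L) := ⟨_, rfl⟩
  have hlam0 : 0 < lam := by rw [hlamd]; positivity
  -- the bad centres
  obtain ⟨S, hS⟩ : ∃ S : Set ℝ, S = {s : ℝ | (({γ : ℝ | |γ - s| < 2 * lam ∧
    mz γ = 1 ∧ c₇ * L / 2 ≤ ‖deriv riemannZeta (1 / 2 + γ * I)‖}.ncard : ℕ) : ℝ) ≤
      c₇ * lam} := ⟨_, rfl⟩
  obtain ⟨m, hm⟩ : ∃ m : ℝ, m = ε * T / 8 := ⟨_, rfl⟩
  have hm0 : 0 < m := by rw [hm]; positivity
  have hblock : ∀ X : ℝ, m / 2 ≤ X → 2 * X ≤ 2 * T →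
      volume (S ∩ Set.Icc X (2 * X)) ≤ ENNReal.ofReal (ε / 80 * X) := by
    intro X hX hXT
    rw [div_le_iff₀ hε] at hTε
    have hX75 : T₇ + T₅ ≤ X := by
      refine le_trans ?_ hX
      rw [hm]
      linarith
    have hT₅0 : 0 < T₅ ∨ T₅ ≤ 0 := lt_or_ge _ _
    have hX7 : T₇ ≤ X := by
      by_contra hcon
      push Not at hcon
      have hT5 : T₅ < 0 := by linarith
      -- then `h5` holds at a number below `10`
      have k1 := h5 0 (by linarith)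
      simp only [Function.comp_apply, Real.log_zero] at k1
      linarith
    have hX0 : 0 < X := by linarith
    have hlX : L / 2 ≤ Real.log X := by
      have e1 : L / 2 = Real.log (Real.sqrt T) := by rw [Real.log_sqrt hT0.le, hLd]
      rw [e1]
      refine Real.log_le_log (Real.sqrt_pos.2 hT0) ?_
      refine le_trans ?_ hX
      rw [hm]
      have hs : 16 / ε ≤ Real.sqrt T := Real.le_sqrt_of_sq_le hTε2
      rw [div_le_iff₀ hε] at hs
      have hss : Real.sqrt T * Real.sqrt T = T := Real.mul_self_sqrt hT0.le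
      have hs0 : 0 < Real.sqrt T := Real.sqrt_pos.2 hT0
      have e2 : Real.sqrt T * 16 ≤ Real.sqrt T * (Real.sqrt T * ε) :=
        mul_le_mul_of_nonneg_left hs hs0.le
      have e3 : Real.sqrt T * (Real.sqrt T * ε) = T * ε := by rw [← mul_assoc, hss]
      linarith
    have hX10 : 10 < X := by linarith
    have hlX1 : 1 < Real.log X := by
      rw [← Real.log_exp 1]
      refine Real.log_lt_log (Real.exp_pos _) ?_
      have := Real.exp_one_lt_d9
      linarith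
    have hmono : Real.log (Real.log (Real.log X)) ≤ Real.log (Real.log L) := by
      refine Real.log_le_log (Real.log_pos hlX1) (Real.log_le_log (by linarith) ?_)
      rw [hLd]
      exact Real.log_le_log hX0 (by linarith)
    have h1 := g7 X lam hX7 (by
      rw [hlamd]
      exact mul_le_mul_of_nonneg_left hmono (by linarith : 0 ≤ C0)) (by rw [hlamd]; linarith)
    refine (measure_mono ?_).trans h1
    rintro s ⟨hs, hs1, hs2⟩
    rw [hS] at hs
    refine ⟨hs1, hs2, le_trans ?_ hs⟩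
    have hfin : {γ : ℝ | |γ - s| < 2 * lam ∧ mz γ = 1 ∧
        c₇ * L / 2 ≤ ‖deriv riemannZeta (1 / 2 + γ * I)‖}.Finite := by
      refine (H27F.win_fin (s - 2 * lam) (s + 2 * lam)).subset ?_
      rintro γ ⟨k1, k2, -⟩
      rw [abs_lt] at k1
      exact ⟨by linarith [k1.1], by linarith [k1.2], by rw [← MS.P4.H30.mz_eq]; exact k2⟩
    refine Nat.cast_le.2 (Set.ncard_le_ncard ?_ hfin)
    rintro γ ⟨k1, k2, k3⟩
    refine ⟨k1, k2, le_trans ?_ k3⟩
    have := mul_le_mul_of_nonneg_left hlX hc₇.le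
    linarith
  obtain ⟨n, hn⟩ : ∃ n : ℕ, 2 * T < 2 ^ n * m := by
    obtain ⟨n, hn⟩ := pow_unbounded_of_one_lt (2 * T / m) (by norm_num : (1 : ℝ) < 2)
    refine ⟨n, ?_⟩
    rwa [div_lt_iff₀ hm0] at hn
  have hvol := H27F.halve (by positivity : 0 ≤ ε / 80) hm0 hblock n (2 * T)
    (by positivity) le_rfl hn
  obtain ⟨U, hUd⟩ : ∃ U : Set ℝ, U = toMeasurable volume (S ∩ Set.Icc m (2 * T)) := ⟨_, rfl⟩
  have hUm : MeasurableSet U := hUd ▸ measurableSet_toMeasurable _ _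
  have hUv : volume U ≤ ENNReal.ofReal (ε / 80 * (2 * T)) := by
    rw [hUd, measure_toMeasurable]
    exact hvol
  have hSU : S ∩ Set.Icc m (2 * T) ⊆ U := hUd ▸ subset_toMeasurable _ _
  have hsub : {t : ℝ | 0 ≤ t ∧ t ≤ T ∧ ∃ h : ℝ, 8 * C0 * Real.log (Real.log L) ≤ h ∧ h ≤ T ∧
        (({γ : ℝ | t < γ ∧ γ < t + h ∧ zeroMult γ = 1 ∧
          c₇ / 16 * L ≤ |deriv hardyZ γ|}.ncard : ℕ) : ℝ) ≤ c₇ / 16 * h} ⊆
      Set.Icc 0 m ∪ {t : ℝ | ∃ h : ℝ, 0 < h ∧ h ≤ T ∧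
        ENNReal.ofReal (h / 4) ≤ volume (U ∩ Ioo t (t + h))} := by
    rintro t ⟨ht0, ht1, h, hh1, hh2, ht2⟩
    by_cases htm : t ≤ m
    · exact Or.inl ⟨ht0, htm⟩
    push Not at htm
    have hh0 : 0 < h := lt_of_lt_of_le hψ0 hh1
    have h8lam : 8 * lam ≤ h := by
      rw [hlamd, ← mul_assoc]
      exact hh1
    refine Or.inr ⟨h, hh0, hh2, ?_⟩
    have hfin1 : {γ : ℝ | t < γ ∧ γ < t + h ∧ zeroMult γ = 1 ∧
        c₇ / 16 * L ≤ |deriv hardyZ γ|}.Finite :=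
      (H27F.win_fin t (t + h)).subset fun γ hγ => ⟨hγ.1, hγ.2.1, hγ.2.2.1⟩
    obtain ⟨F, hF⟩ : ∃ F : Finset ℝ, F = hfin1.toFinset := ⟨_, rfl⟩
    have hFm : ∀ γ : ℝ, γ ∈ F ↔ t < γ ∧ γ < t + h ∧ zeroMult γ = 1 ∧
        c₇ / 16 * L ≤ |deriv hardyZ γ| := fun γ => by
      rw [hF, Set.Finite.mem_toFinset]
      rfl
    have hcard : (F.card : ℝ) ≤ c₇ / 16 * h := by
      rw [hF, ← Set.ncard_eq_toFinset_card _ hfin1]
      exact ht2
    refine many hUm hlam0 h8lam hc₇ (F := F) (by linarith) fun s hs hsU => ?_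
    have hsS : s ∉ S := fun hsS => hsU (hSU ⟨hsS, by linarith [hs.1], by linarith [hs.2]⟩)
    rw [hS] at hsS
    have k1 : c₇ * lam < (({γ : ℝ | |γ - s| < 2 * lam ∧ mz γ = 1 ∧
        c₇ * L / 2 ≤ ‖deriv riemannZeta (1 / 2 + γ * I)‖}.ncard : ℕ) : ℝ) := not_le.1 hsS
    refine lt_of_lt_of_le k1 ?_
    have k2 : {γ : ℝ | |γ - s| < 2 * lam ∧ mz γ = 1 ∧
        c₇ * L / 2 ≤ ‖deriv riemannZeta (1 / 2 + γ * I)‖} ⊆
        ((F.filter fun γ => |γ - s| < 2 * lam : Finset ℝ) : Set ℝ) := by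
      rintro γ ⟨k3, k4, k5⟩
      rw [Finset.coe_filter]
      have k6 := abs_lt.1 k3
      have k7 : zeroMult γ = 1 := by rw [← MS.P4.H30.mz_eq]; exact k4
      refine ⟨(hFm γ).2 ⟨by linarith [hs.1], by linarith [hs.2], k7, ?_⟩, k3⟩
      rw [dhz9 (H27F.zero_of_zeroMult k7)]
      refine le_trans ?_ k5
      have := mul_pos hc₇ hL0
      linarith
    have k8 := Set.ncard_le_ncard k2 (Finset.finite_toSet _)
    rw [Set.ncard_coe_finset] at k8
    exact_mod_cast k8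
  refine (measure_mono hsub).trans ((measure_union_le _ _).trans ?_)
  rw [Real.volume_Icc, sub_zero]
  refine (add_le_add le_rfl ((winall hUm T).trans (mul_le_mul_right hUv 20))).trans ?_
  have e4 : (20 : ℝ≥0∞) = ENNReal.ofReal 20 := by norm_num
  rw [e4, ← ENNReal.ofReal_mul (by norm_num), ← ENNReal.ofReal_add hm0.le (by positivity)]
  refine ENNReal.ofReal_le_ofReal ?_
  rw [hm]
  have := mul_pos hε hT0
  nlinarith

end Pool.Agent.Lib.MP_6bc78b_nt.GP.H35F
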