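import Pool.Agent.Lib.MP_6bc78b_nt.GP.H41.BandG
import Pool.Agent.Lib.MP_6bc78b_nt.GP.H2.DefsZ

/-! Project GP11, second road, crude form of ZPOS for any length: the frequencies `u ≥ 0`. -/

set_option autoImplicit false

open Complex Filter Topology MeasureTheory Set
open scoped ENNReal ComplexConjugate

namespace Pool.Agent.Lib.MP_6bc78b_nt.GP.H35Z

open Pool.Agent.Lib.MP_6bc78b_nt.MS Pool.Agent.Lib.MP_6bc78b_nt.MS.P1
open Pool.Agent.Lib.MP_6bc78b_nt.GP Pool.Agent.Lib.MP_6bc78b_nt.GP.G11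
open Pool.Agent.Lib.MP_6bc78b_nt.GP.G11Z
open H76 H34T H41B

/-- `c(n) = ∑_{m | n} x(m)` for `n ≥ 1`. -/
noncomputable def cn (S : Finset ℕ) (x : ℕ → ℝ) (n : ℕ) : ℝ := if n = 0 then 0 else sm S x n

/-- `∑ x(m) / (e^{mz} - 1)`. -/
noncomputable def Ps (S : Finset ℕ) (x : ℕ → ℝ) (z : ℂ) : ℂ :=
  ∑ m ∈ S, (x m : ℂ) * (1 / (Complex.exp (m * z) - 1))

lemma hasSum_one {m : ℕ} (hm : 1 ≤ m) {z : ℂ} (hz : 0 < z.re) :
    HasSum (fun n : ℕ => (((if n = 0 then 0 else if m ∣ n then 1 else 0 : ℝ)) : ℂ) *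
      Complex.exp (-(n * z))) (1 / (Complex.exp (m * z) - 1)) := by
  have hmz : 0 < ((m : ℂ) * z).re := by
    have : ((m : ℂ) * z).re = m * z.re := by simp
    rw [this]
    have : (0 : ℝ) < m := by exact_mod_cast hm
    positivity
  have hr : ‖Complex.exp (-(m * z))‖ < 1 := by
    rw [Complex.norm_exp, Real.exp_lt_one_iff]
    simpa using hmz
  have h1 : HasSum (fun k : ℕ => Complex.exp (-(m * z)) * Complex.exp (-(m * z)) ^ k)
      (Complex.exp (-(m * z)) * (1 - Complex.exp (-(m * z)))⁻¹) :=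
    (hasSum_geometric_of_norm_lt_one hr).mul_left _
  have e0 : Complex.exp (m * z) ≠ 0 := Complex.exp_ne_zero _
  have e1 : Complex.exp (-(m * z)) * (1 - Complex.exp (-(m * z)))⁻¹ =
      1 / (Complex.exp (m * z) - 1) := by
    rw [Complex.exp_neg]
    by_cases h : Complex.exp (m * z) = 1
    · rw [h]
      simp
    · have h2 : Complex.exp (m * z) - 1 ≠ 0 := sub_ne_zero.2 h
      have h3 : 1 - (Complex.exp (m * z))⁻¹ ≠ 0 := by
        intro h4
        apply h
        have h5 : (Complex.exp (m * z))⁻¹ = 1 := (sub_eq_zero.1 h4).symm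
        rw [inv_eq_one] at h5
        exact h5
      field_simp
  rw [e1] at h1
  have hinj : Function.Injective (fun k : ℕ => m * (k + 1)) := fun a b h => by
    have := Nat.eq_of_mul_eq_mul_left hm h
    omega
  refine (hinj.hasSum_iff ?_).1 ?_
  · intro n hn
    by_cases h0 : n = 0
    · simp [h0]
    · have h2 : ¬ m ∣ n := by
        rintro ⟨k, hk⟩
        apply hn
        have hk0 : k ≠ 0 := by
          rintro rfl
          simp at hk
          exact h0 hk
        refine ⟨k - 1, ?_⟩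
        simp only
        rw [Nat.sub_add_cancel (by omega)]
        exact hk.symm
      simp [h0, h2]
  · convert h1 using 1
    funext k
    simp only [Function.comp]
    have h3 : m * (k + 1) ≠ 0 := by positivity
    rw [if_neg h3, if_pos (Dvd.intro (k + 1) rfl), ← Complex.exp_nat_mul, ← Complex.exp_add]
    push_cast
    rw [one_mul]
    congr 1
    ring

lemma hasSum_Ps {S : Finset ℕ} (hS : ∀ m ∈ S, 1 ≤ m) (x : ℕ → ℝ) {z : ℂ}
    (hz : 0 < z.re) :
    HasSum (fun n : ℕ => (cn S x n : ℂ) * Complex.exp (-(n * z))) (Ps S x z) := by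
  have h1 : HasSum (fun n : ℕ => ∑ m ∈ S, (x m : ℂ) *
      ((((if n = 0 then 0 else if m ∣ n then 1 else 0 : ℝ)) : ℂ) * Complex.exp (-(n * z))))
      (Ps S x z) :=
    hasSum_sum fun m hm => (hasSum_one (hS m hm) hz).mul_left _
  convert h1 using 1
  funext n
  unfold cn sm
  by_cases h0 : n = 0
  · simp [h0]
  · simp only [h0, if_false]
    rw [Complex.ofReal_sum, Finset.sum_mul]
    refine Finset.sum_congr rfl fun m _ => ?_
    split_ifs
    · push_cast
      ring
    · simp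

lemma cn_sq (S : Finset ℕ) (x : ℕ → ℝ) (n : ℕ) :
    cn S x n ^ 2 ≤ sm S (fun m => |x m|) n ^ 2 := by
  have h0 : 0 ≤ sm S (fun m => |x m|) n := by
    unfold sm
    refine Finset.sum_nonneg fun m _ => ?_
    split_ifs
    · exact abs_nonneg _
    · exact le_rfl
  rw [← sq_abs]
  refine pow_le_pow_left₀ (abs_nonneg _) ?_ 2
  unfold cn
  by_cases h : n = 0
  · rw [if_pos h, abs_zero]
    exact h0
  · rw [if_neg h]
    unfold sm
    refine (Finset.abs_sum_le_sum_abs _ _).trans (Finset.sum_le_sum fun m _ => ?_)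
    split_ifs
    · exact le_rfl
    · simp

/-- The form with absolute values. -/
noncomputable def Rx (S : Finset ℕ) (x : ℕ → ℝ) : ℝ :=
  ∑ m ∈ S, ∑ m' ∈ S, |x m| * |x m'| / (Nat.lcm m m' : ℝ)

lemma Rx_nonneg (S : Finset ℕ) (x : ℕ → ℝ) : 0 ≤ Rx S x :=
  Finset.sum_nonneg fun _ _ => Finset.sum_nonneg fun _ _ =>
    div_nonneg (mul_nonneg (abs_nonneg _) (abs_nonneg _)) (Nat.cast_nonneg _)

/-- The size of the squares. -/
lemma size_cn {S : Finset ℕ} (hS : ∀ m ∈ S, 1 ≤ m) (x : ℕ → ℝ) {y : ℝ} (hy : 0 < y) (N : ℕ) :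
    ∑ n ∈ Finset.range N, (cn S x n * Real.exp (-(n * y))) ^ 2 ≤
      Real.exp (-y) * (Rx S x / y) := by
  have hR := Rx_nonneg S x
  have hK : 0 ≤ Real.exp (-y) * (Rx S x / y) := by positivity
  rcases N with _ | N
  · simpa using hK
  have h0 : cn S x 0 = 0 := by simp [cn]
  rw [Finset.sum_range_succ', h0]
  simp only [zero_mul, ne_eq, OfNat.ofNat_ne_zero, not_false_eq_true, zero_pow, add_zero]
  have h1 := sum_sm (S := S) (β := fun m => |x m|) hy hS (fun m => abs_nonneg _)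
    (C₁ := Rx S x) le_rfl N
  refine le_trans ?_ (mul_le_mul_of_nonneg_left h1 (Real.exp_pos _).le)
  rw [Finset.mul_sum]
  refine Finset.sum_le_sum fun n _ => ?_
  rw [mul_pow]
  have h2 := cn_sq S x (n + 1)
  have h3 : Real.exp (-(((n + 1 : ℕ) : ℝ) * y)) ^ 2 ≤
      Real.exp (-y) * Real.exp (-y) ^ (n + 1) := by
    rw [← Real.exp_nat_mul, ← Real.exp_nat_mul, ← Real.exp_add]
    apply Real.exp_le_exp.2
    have h4 : (0 : ℝ) ≤ n := Nat.cast_nonneg n
    have h5 : 0 ≤ (n : ℝ) * y := by positivity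
    push_cast
    nlinarith
  calc cn S x (n + 1) ^ 2 * Real.exp (-(((n + 1 : ℕ) : ℝ) * y)) ^ 2 ≤
      sm S (fun m => |x m|) (n + 1) ^ 2 * (Real.exp (-y) * Real.exp (-y) ^ (n + 1)) :=
        mul_le_mul h2 h3 (by positivity) (by positivity)
    _ = _ := by ring

/-- `|Ps|²` on the right half plane, `0` elsewhere. -/
noncomputable def gP (S : Finset ℕ) (x : ℕ → ℝ) (z : ℂ) : ℝ≥0∞ :=
  ENNReal.ofReal (‖(if 0 < z.re then Ps S x z else 0 : ℂ)‖ ^ 2)

theorem measurable_gP {S : Finset ℕ} (hS : ∀ m ∈ S, 1 ≤ m) (x : ℕ → ℝ) :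
    Measurable (gP S x) := by
  have hset : MeasurableSet {z : ℂ | 0 < z.re} :=
    measurableSet_lt measurable_const Complex.measurable_re
  have h1 : Measurable fun z : ℂ => (if 0 < z.re then Ps S x z else 0 : ℂ) := by
    refine measurable_of_tendsto_metrizable
      (f := fun (N : ℕ) (z : ℂ) => (if 0 < z.re then
        ∑ n ∈ Finset.range N, (cn S x n : ℂ) * Complex.exp (-(n * z)) else 0 : ℂ))
      (fun N => Measurable.ite hset ?_ measurable_const) ?_
    · refine Finset.measurable_sum _ fun n _ => ?_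
      fun_prop
    · rw [tendsto_pi_nhds]
      intro z
      by_cases hz : 0 < z.re
      · simp only [hz, if_true]
        exact (hasSum_Ps hS x hz).tendsto_sum_nat
      · simp only [hz, if_false]
        exact tendsto_const_nhds
  unfold gP
  exact (h1.norm.pow_const 2).ennreal_ofReal

/-- The integral over a rectangle. -/
lemma rc_le {S : Finset ℕ} (hS : ∀ m ∈ S, 1 ≤ m) (x : ℕ → ℝ) {T : ℝ} (hT : 10 ≤ T) (k : ℤ) :
    ∫⁻ z in RC k T, gP S x z ≤
      ENNReal.ofReal (30 * Real.exp k / T * ((2 * Real.pi * Real.exp (k + 1) + 4 * Real.pi) *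
        (Real.exp (-(5 * Real.exp k / T)) * (Rx S x / (5 * Real.exp k / T))))) := by
  have hTp : 0 < T := by linarith
  have hpi := Real.pi_pos
  have hek : 0 < Real.exp (k : ℝ) := Real.exp_pos _
  have hR := Rx_nonneg S x
  set x1 : ℝ := 5 * Real.exp k / T with hx1
  have hx1p : 0 < x1 := by positivity
  unfold RC
  rw [iter_eq2 _ (measurable_gP hS x)]
  have hin : ∀ y ∈ Icc (5 * Real.exp k / T) (35 * Real.exp k / T),
      ∫⁻ v in Icc (-(2 * Real.pi)) (2 * Real.pi * Real.exp (k + 1)), gP S x (⟨y, v⟩ : ℂ) ≤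
      ENNReal.ofReal ((2 * Real.pi * Real.exp (k + 1) + 4 * Real.pi) *
        (Real.exp (-x1) * (Rx S x / x1))) := by
    intro y hy
    have hy0 : x1 ≤ y := hy.1
    have hyp : 0 < y := lt_of_lt_of_le hx1p hy0
    have hre : ∀ v : ℝ, 0 < ((y : ℂ) + v * I).re := by
      intro v
      simpa using hyp
    have e1 : ∀ v : ℝ, gP S x (⟨y, v⟩ : ℂ) = ENNReal.ofReal
        (‖∑' n : ℕ, (cn S x n : ℂ) * Complex.exp (-(n * (y + v * I)))‖ ^ 2) := by
      intro v
      have e2 : (⟨y, v⟩ : ℂ) = y + v * I := by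
        apply Complex.ext <;> simp
      unfold gP
      rw [if_pos hyp, e2, (hasSum_Ps hS x (hre v)).tsum_eq]
    simp only [e1]
    have hs := ser_le (cn S x) y
      (Real.exp (-x1) * (Rx S x / x1))
      (fun v => (hasSum_Ps hS x (hre v)).summable)
      (fun N => (size_cn hS x hyp N).trans (by
        refine mul_le_mul (Real.exp_le_exp.2 (by linarith)) ?_ (by positivity)
          (Real.exp_pos _).le
        exact div_le_div_of_nonneg_left hR hx1p hy0))
      (-(2 * Real.pi)) (2 * Real.pi * Real.exp (k + 1)) (by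
        have : 0 < 2 * Real.pi * Real.exp ((k : ℝ) + 1) := by positivity
        linarith)
    refine hs.trans (le_of_eq ?_)
    congr 1
    ring
  refine (setLIntegral_mono' measurableSet_Icc hin).trans ?_
  rw [setLIntegral_const, Real.volume_Icc, mul_comm, ← ENNReal.ofReal_mul]
  · refine ENNReal.ofReal_le_ofReal (le_of_eq ?_)
    ring
  · have e : 35 * Real.exp (k : ℝ) / T - 5 * Real.exp k / T = 30 * (Real.exp k / T) := by ring
    rw [e]
    positivity

/-- `e^{-2k}` times the integral over the image. -/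
lemma box_le {S : Finset ℕ} (hS : ∀ m ∈ S, 1 ≤ m) (x : ℕ → ℝ) {T : ℝ} (hT : 10 ≤ T) (k : ℤ) :
    ∫⁻ w in BX k T, gP S x (ph w) ≤
      ENNReal.ofReal (1 / (4 * Real.pi ^ 2 * Real.exp (2 * k))) *
        ENNReal.ofReal (30 * Real.exp k / T * ((2 * Real.pi * Real.exp (k + 1) + 4 * Real.pi) *
        (Real.exp (-(5 * Real.exp k / T)) * (Rx S x / (5 * Real.exp k / T))))) := by
  have hpi := Real.pi_pos
  have e2 : ∫⁻ z in ph '' (BX k T), gP S x z =
      ∫⁻ w in BX k T, ENNReal.ofReal |(dph w).det| * gP S x (ph w) :=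
    lintegral_image_eq_lintegral_abs_det_fderiv_mul volume (measurableSet_BX k T)
      (fun w _ => (hasFDerivAt_ph w).hasFDerivWithinAt) (injOn_BX hT k) _
  have h3 : ∫⁻ z in ph '' (BX k T), gP S x z ≤ _ :=
    (lintegral_mono_set (image_BX hT k)).trans (rc_le hS x hT k)
  refine le_trans ?_ (mul_le_mul' le_rfl h3)
  rw [e2, ← lintegral_const_mul]
  · refine setLIntegral_mono' (measurableSet_BX k T) fun w hw => ?_
    rw [← mul_assoc, ← ENNReal.ofReal_mul (by positivity), det_dph]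
    have h4 : 1 ≤ 1 / (4 * Real.pi ^ 2 * Real.exp (2 * k)) *
        (4 * Real.pi ^ 2 * Real.exp (2 * w.re)) := by
      rw [one_div, inv_mul_eq_div, one_le_div (by positivity)]
      refine mul_le_mul_of_nonneg_left (Real.exp_le_exp.2 ?_) (by positivity)
      linarith [hw.1.1]
    calc gP S x (ph w) = ENNReal.ofReal 1 * gP S x (ph w) := by
          rw [ENNReal.ofReal_one, one_mul]
      _ ≤ _ := mul_le_mul' (ENNReal.ofReal_le_ofReal h4) le_rfl
  · refine Measurable.mul ?_ ((measurable_gP hS x).comp measurable_ph)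
    simp only [det_dph]
    fun_prop

/-- The numbers. -/
lemma num_le {R : ℝ} (hR : 0 ≤ R) {T : ℝ} (hT : 10 ≤ T) (k : ℕ) :
    Real.exp ((k : ℝ) + 1) * (1 / (4 * Real.pi ^ 2 * Real.exp (2 * k)) *
      (30 * Real.exp k / T * ((2 * Real.pi * Real.exp (k + 1) + 4 * Real.pi) *
        (Real.exp (-(5 * Real.exp k / T)) * (R / (5 * Real.exp k / T)))))) ≤
      15 * R * Real.exp (-(5 * Real.exp k / T)) := by
  have hTp : 0 < T := by linarith
  have hpi := Real.pi_pos
  have hpi3 := Real.pi_gt_three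
  have hek : 1 ≤ Real.exp (k : ℝ) := Real.one_le_exp (Nat.cast_nonneg k)
  have hek0 : 0 < Real.exp (k : ℝ) := Real.exp_pos _
  have hE : 0 < Real.exp (-(5 * Real.exp (k : ℝ) / T)) := Real.exp_pos _
  have hy : 2 * Real.pi * Real.exp (k + 1) + 4 * Real.pi ≤ 10 * Real.pi * Real.exp k := by
    have h1 : Real.exp ((k : ℝ) + 1) ≤ 3 * Real.exp k := by
      rw [Real.exp_add, mul_comm]
      have := Real.exp_one_lt_d9
      exact mul_le_mul_of_nonneg_right (by linarith) hek0.le
    nlinarith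
  have hx : 30 * Real.exp (k : ℝ) / T * ((2 * Real.pi * Real.exp (k + 1) + 4 * Real.pi) *
        (Real.exp (-(5 * Real.exp k / T)) * (R / (5 * Real.exp k / T)))) =
      6 * R * Real.exp (-(5 * Real.exp k / T)) *
        (2 * Real.pi * Real.exp (k + 1) + 4 * Real.pi) := by
    field_simp
    ring
  rw [hx]
  have e2 : Real.exp (2 * (k : ℝ)) = Real.exp k * Real.exp k := by
    rw [← Real.exp_add]
    congr 1
    ring
  have e3 : Real.exp ((k : ℝ) + 1) = Real.exp k * Real.exp 1 := Real.exp_add _ _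
  calc Real.exp ((k : ℝ) + 1) * (1 / (4 * Real.pi ^ 2 * Real.exp (2 * k)) *
      (6 * R * Real.exp (-(5 * Real.exp k / T)) *
        (2 * Real.pi * Real.exp (k + 1) + 4 * Real.pi)))
      ≤ Real.exp ((k : ℝ) + 1) * (1 / (4 * Real.pi ^ 2 * Real.exp (2 * k)) *
      (6 * R * Real.exp (-(5 * Real.exp k / T)) * (10 * Real.pi * Real.exp k))) := by
        refine mul_le_mul_of_nonneg_left ?_ (Real.exp_pos _).le
        refine mul_le_mul_of_nonneg_left ?_ (by positivity)
        exact mul_le_mul_of_nonneg_left hy (by positivity)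
    _ = R * Real.exp (-(5 * Real.exp k / T)) * (15 * Real.exp 1 / Real.pi) := by
        rw [e2, e3]
        field_simp
        ring
    _ ≤ R * Real.exp (-(5 * Real.exp k / T)) * 15 := by
        refine mul_le_mul_of_nonneg_left ?_ (by positivity)
        rw [div_le_iff₀ hpi]
        have := Real.exp_one_lt_d9
        nlinarith
    _ = _ := by ring

/-- The function on the `u`-side. -/
noncomputable def GQ (S : Finset ℕ) (x : ℕ → ℝ) (p : ℝ × ℝ) : ℝ≥0∞ :=
  gP S x (zp p.2 p.1) * ENNReal.ofReal (Real.exp p.2)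

lemma meas_GQ {S : Finset ℕ} (hS : ∀ m ∈ S, 1 ≤ m) (x : ℕ → ℝ) :
    Measurable (GQ S x) := by
  unfold GQ
  refine ((measurable_gP hS x).comp H92.meas_zp).mul ?_
  refine Measurable.ennreal_ofReal (Continuous.measurable ?_)
  fun_prop

/-- One unit block of positive frequencies. -/
lemma block_le {S : Finset ℕ} (hS : ∀ m ∈ S, 1 ≤ m) (x : ℕ → ℝ) {T : ℝ} (hT : 10 ≤ T) (k : ℕ) :
    ∫⁻ δ in Icc (1 / T) (2 / T), ∫⁻ v in Icc (k : ℝ) (k + 1), GQ S x (δ, v) ≤
      ENNReal.ofReal (15 * Rx S x * Real.exp (-(5 * Real.exp k / T))) := by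
  have hR := Rx_nonneg S x
  have hm0 : Measurable fun w : ℂ => gP S x (ph w) := (measurable_gP hS x).comp measurable_ph
  have h2 : ∫⁻ δ in Icc (1 / T) (2 / T), ∫⁻ v in Icc (k : ℝ) (k + 1), GQ S x (δ, v) ≤
      ENNReal.ofReal (Real.exp ((k : ℝ) + 1)) * ∫⁻ w in BX (k : ℤ) T, gP S x (ph w) := by
    have hm : Measurable fun w : ℂ => ENNReal.ofReal (Real.exp ((k : ℝ) + 1)) *
        gP S x (ph w) := hm0.const_mul _
    rw [← lintegral_const_mul _ hm0]
    have h3 := iter_eq (fun w : ℂ => ENNReal.ofReal (Real.exp ((k : ℝ) + 1)) *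
        gP S x (ph w)) hm (k : ℝ) (k + 1) (1 / T) (2 / T)
    have e : BX (k : ℤ) T = {w : ℂ | w.re ∈ Icc (k : ℝ) (k + 1) ∧
        w.im ∈ Icc (1 / T) (2 / T)} := by
      unfold BX
      simp
    rw [e]
    refine le_trans ?_ (le_of_eq h3)
    refine lintegral_mono fun δ => ?_
    refine setLIntegral_mono' measurableSet_Icc fun v hv => ?_
    unfold GQ
    rw [← zp_re_im, mul_comm]
    exact mul_le_mul' (ENNReal.ofReal_le_ofReal (Real.exp_le_exp.2 hv.2)) le_rfl
  refine h2.trans ((mul_le_mul' le_rfl (box_le hS x hT (k : ℤ))).trans ?_)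
  rw [← ENNReal.ofReal_mul (by positivity), ← ENNReal.ofReal_mul (by positivity)]
  refine ENNReal.ofReal_le_ofReal ?_
  have h4 := num_le (R := Rx S x) hR hT k
  push_cast
  exact h4

end Pool.Agent.Lib.MP_6bc78b_nt.GP.H35Z
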