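import Pool.Agent.Lib.MP_6bc78b_nt.GP.H35.Zpa

/-! Project GP11, second road, crude form of ZPOS for any length: the theorem. -/

set_option autoImplicit false

open Complex Filter Topology MeasureTheory Set
open scoped ENNReal ComplexConjugate

namespace Pool.Agent.Lib.MP_6bc78b_nt.GP.H35Z

open Pool.Agent.Lib.MP_6bc78b_nt.MS Pool.Agent.Lib.MP_6bc78b_nt.MS.P1
open Pool.Agent.Lib.MP_6bc78b_nt.GP Pool.Agent.Lib.MP_6bc78b_nt.GP.G11
open Pool.Agent.Lib.MP_6bc78b_nt.GP.G11Z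
open H76 H34T H41B

/-- The frequencies `u ≥ 0` for any length: crude bound. -/
def ZPOSLStatement : Prop := ∃ C T0 : ℝ, 0 < C ∧ 10 < T0 ∧
  ∀ (T : ℝ) (S : Finset ℕ) (a : ℕ → ℂ), T0 ≤ T → (∀ m ∈ S, 1 ≤ m) →
    ∫⁻ δ in Icc (1 / T) (2 / T), ∫⁻ u in Ici (0 : ℝ),
      ENNReal.ofReal (‖Ph S a (zr u δ)‖ ^ 2 * Real.exp u * wt T u) ≤
      ENNReal.ofReal (C * Real.log T ^ 4 * Rf S a)

lemma zr_eq (u δ : ℝ) : zr u δ = zp u δ + 2 * Real.pi * I := by
  unfold zr zp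
  ring

lemma Ps_zr (S : Finset ℕ) (x : ℕ → ℝ) (u δ : ℝ) : Ps S x (zr u δ) = Ps S x (zp u δ) := by
  unfold Ps
  refine Finset.sum_congr rfl fun m _ => ?_
  have e : Complex.exp ((m : ℂ) * zr u δ) = Complex.exp ((m : ℂ) * zp u δ) := by
    rw [zr_eq, mul_add, Complex.exp_add]
    have h : Complex.exp ((m : ℂ) * (2 * Real.pi * I)) = 1 := Complex.exp_nat_mul_two_pi_mul_I m
    rw [h, mul_one]
  rw [e]

lemma norm_zr (u δ : ℝ) : ‖zr u δ‖ = 2 * Real.pi * Real.exp u := by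
  unfold zr
  rw [norm_mul, Complex.norm_exp]
  simp [abs_of_pos Real.pi_pos]

lemma zr_re_pos {u δ : ℝ} (h0 : 0 < δ) (h1 : δ < 1) : 0 < (zp u δ).re := by
  have e := zp_re_im (⟨u, δ⟩ : ℂ)
  simp only at e
  rw [e, ph_re]
  simp only
  have hs : 0 < Real.sin δ := Real.sin_pos_of_pos_of_lt_pi h0 (by
    have := Real.pi_gt_three
    linarith)
  have := Real.pi_pos
  have := Real.exp_pos u
  positivity

lemma Rf_nonneg (S : Finset ℕ) (a : ℕ → ℂ) : 0 ≤ Rf S a :=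
  Finset.sum_nonneg fun _ _ => Finset.sum_nonneg fun _ _ =>
    div_nonneg (mul_nonneg (norm_nonneg _) (norm_nonneg _)) (Nat.cast_nonneg _)

lemma Rx_le {S : Finset ℕ} {a : ℕ → ℂ} {x : ℕ → ℝ} (h : ∀ m, |x m| ≤ ‖a m‖) :
    Rx S x ≤ Rf S a := by
  unfold Rx Rf
  refine Finset.sum_le_sum fun m _ => Finset.sum_le_sum fun m' _ => ?_
  refine div_le_div_of_nonneg_right ?_ (Nat.cast_nonneg _)
  exact mul_le_mul (h m) (h m') (abs_nonneg _) (norm_nonneg _)

lemma sum_sq_le {S : Finset ℕ} (hS : ∀ m ∈ S, 1 ≤ m) (a : ℕ → ℂ) :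
    ‖∑ m ∈ S, a m / m‖ ^ 2 ≤ Rf S a := by
  have h1 : ‖∑ m ∈ S, a m / m‖ ≤ ∑ m ∈ S, ‖a m‖ / m := by
    refine (norm_sum_le _ _).trans (le_of_eq (Finset.sum_congr rfl fun m _ => ?_))
    rw [norm_div, Complex.norm_natCast]
  refine (pow_le_pow_left₀ (norm_nonneg _) h1 2).trans ?_
  rw [sq, Finset.sum_mul_sum]
  unfold Rf
  refine Finset.sum_le_sum fun m hm => Finset.sum_le_sum fun m' hm' => ?_
  rw [div_mul_div_comm]
  have h2 : 1 ≤ Nat.lcm m m' := Nat.lcm_pos (hS m hm) (hS m' hm')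
  have h3 : Nat.lcm m m' ≤ m * m' := Nat.le_of_dvd (by
    have := hS m hm
    have := hS m' hm'
    positivity) (Nat.lcm_dvd_mul m m')
  refine div_le_div_of_nonneg_left (by positivity) (by exact_mod_cast h2) (by exact_mod_cast h3)

/-- The splitting. -/
lemma Ph_split (S : Finset ℕ) (a : ℕ → ℂ) {z : ℂ} :
    Ph S a z = Ps S (fun m => (a m).re) z + I * Ps S (fun m => (a m).im) z -
      (∑ m ∈ S, a m / m) * (1 / z) := by
  unfold Ph Ps ph1
  rw [Finset.mul_sum, ← Finset.sum_add_distrib, Finset.sum_mul, ← Finset.sum_sub_distrib]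
  refine Finset.sum_congr rfl fun m _ => ?_
  have e : a m = ((a m).re : ℂ) + I * ((a m).im : ℂ) := by
    rw [mul_comm]
    exact (Complex.re_add_im (a m)).symm
  have e2 : a m / m * (1 / z) = a m * (1 / (m * z)) := by
    rw [div_mul_div_comm, mul_one, mul_one_div]
  rw [e2, mul_sub]
  nth_rewrite 1 [e]
  ring

lemma wt_le {T u : ℝ} (hL : 0 < Real.log T) {k : ℕ} (hu0 : 0 ≤ u) (hu : u ≤ k + 1) :
    wt T u ≤ Real.log T * ((k : ℝ) + 1) ^ 2 + ((k : ℝ) + 1) ^ 4 / Real.log T := by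
  unfold wt
  refine add_le_add (mul_le_mul_of_nonneg_left (pow_le_pow_left₀ hu0 hu 2) hL.le) ?_
  exact div_le_div_of_nonneg_right (pow_le_pow_left₀ hu0 hu 4) hL.le

/-- One point. -/
lemma point_le {S : Finset ℕ} (hS : ∀ m ∈ S, 1 ≤ m) (a : ℕ → ℂ) {T u δ : ℝ}
    (hL : 0 < Real.log T) (h0 : 0 < δ) (h1 : δ < 1) {k : ℕ} (hu : u ∈ Icc (k : ℝ) (k + 1)) :
    ENNReal.ofReal (‖Ph S a (zr u δ)‖ ^ 2 * Real.exp u * wt T u) ≤
      ENNReal.ofReal (3 * (Real.log T * ((k : ℝ) + 1) ^ 2 + ((k : ℝ) + 1) ^ 4 / Real.log T)) *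
        (GQ S (fun m => (a m).re) (δ, u) + GQ S (fun m => (a m).im) (δ, u) +
          ENNReal.ofReal (Rf S a * Real.exp (-(k : ℝ)))) := by
  have hk : (0 : ℝ) ≤ k := Nat.cast_nonneg k
  have hu0 : 0 ≤ u := hk.trans hu.1
  have hw := wt_le hL hu0 hu.2
  have hw0 : 0 ≤ wt T u := by
    unfold wt
    positivity
  set W : ℝ := Real.log T * ((k : ℝ) + 1) ^ 2 + ((k : ℝ) + 1) ^ 4 / Real.log T with hWdef
  have hz : 0 < (zp u δ).re := zr_re_pos h0 h1
  have hR := Rf_nonneg S a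
  set X := Ps S (fun m => (a m).re) (zp u δ) with hX
  set Y := Ps S (fun m => (a m).im) (zp u δ) with hY
  set V := ∑ m ∈ S, a m / m with hV
  have e1 : GQ S (fun m => (a m).re) (δ, u) = ENNReal.ofReal (‖X‖ ^ 2 * Real.exp u) := by
    unfold GQ gP
    simp only
    rw [if_pos hz, ← ENNReal.ofReal_mul (by positivity)]
  have e2 : GQ S (fun m => (a m).im) (δ, u) = ENNReal.ofReal (‖Y‖ ^ 2 * Real.exp u) := by
    unfold GQ gP
    simp only
    rw [if_pos hz, ← ENNReal.ofReal_mul (by positivity)]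
  rw [e1, e2, ← ENNReal.ofReal_add (by positivity) (by positivity),
    ← ENNReal.ofReal_add (by positivity) (by positivity), ← ENNReal.ofReal_mul (by positivity)]
  refine ENNReal.ofReal_le_ofReal ?_
  have e3 : Ph S a (zr u δ) = X + I * Y - V * (1 / zr u δ) := by
    rw [Ph_split, Ps_zr, Ps_zr]
  have h3 : ‖Ph S a (zr u δ)‖ ≤ ‖X‖ + ‖Y‖ + ‖V * (1 / zr u δ)‖ := by
    rw [e3]
    refine (norm_sub_le _ _).trans (add_le_add ((norm_add_le _ _).trans ?_) le_rfl)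
    rw [norm_mul, Complex.norm_I, one_mul]
  have h4 : ‖Ph S a (zr u δ)‖ ^ 2 ≤ 3 * (‖X‖ ^ 2 + ‖Y‖ ^ 2 + ‖V * (1 / zr u δ)‖ ^ 2) := by
    refine (pow_le_pow_left₀ (norm_nonneg _) h3 2).trans ?_
    nlinarith [sq_nonneg (‖X‖ - ‖Y‖), sq_nonneg (‖X‖ - ‖V * (1 / zr u δ)‖),
      sq_nonneg (‖Y‖ - ‖V * (1 / zr u δ)‖)]
  have h5 : ‖V * (1 / zr u δ)‖ ^ 2 * Real.exp u ≤ Rf S a * Real.exp (-(k : ℝ)) := by
    rw [norm_mul, norm_div, norm_one, norm_zr, mul_pow]
    have h6 : (1 / (2 * Real.pi * Real.exp u)) ^ 2 * Real.exp u ≤ Real.exp (-(k : ℝ)) := by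
      have hpi := Real.pi_gt_three
      have h7 : (1 / (2 * Real.pi * Real.exp u)) ^ 2 * Real.exp u =
          1 / (2 * Real.pi) ^ 2 * Real.exp (-u) := by
        rw [Real.exp_neg]
        have := Real.exp_pos u
        field_simp
      rw [h7]
      have h8 : 1 / (2 * Real.pi) ^ 2 ≤ 1 := by
        rw [div_le_one (by positivity)]
        nlinarith
      calc 1 / (2 * Real.pi) ^ 2 * Real.exp (-u) ≤ 1 * Real.exp (-(k : ℝ)) :=
            mul_le_mul h8 (Real.exp_le_exp.2 (by linarith [hu.1])) (Real.exp_pos _).le one_pos.le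
        _ = _ := one_mul _
    calc ‖V‖ ^ 2 * (1 / (2 * Real.pi * Real.exp u)) ^ 2 * Real.exp u =
        ‖V‖ ^ 2 * ((1 / (2 * Real.pi * Real.exp u)) ^ 2 * Real.exp u) := by ring
      _ ≤ Rf S a * Real.exp (-(k : ℝ)) := mul_le_mul (sum_sq_le hS a) h6 (by positivity) hR
  calc ‖Ph S a (zr u δ)‖ ^ 2 * Real.exp u * wt T u ≤
      (3 * (‖X‖ ^ 2 + ‖Y‖ ^ 2 + ‖V * (1 / zr u δ)‖ ^ 2)) * Real.exp u * W :=
        mul_le_mul (mul_le_mul_of_nonneg_right h4 (Real.exp_pos _).le) hw hw0 (by positivity)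
    _ = 3 * W * (‖X‖ ^ 2 * Real.exp u + ‖Y‖ ^ 2 * Real.exp u +
        ‖V * (1 / zr u δ)‖ ^ 2 * Real.exp u) := by ring
    _ ≤ 3 * W * (‖X‖ ^ 2 * Real.exp u + ‖Y‖ ^ 2 * Real.exp u +
        Rf S a * Real.exp (-(k : ℝ))) :=
        mul_le_mul_of_nonneg_left (by linarith) (by positivity)

/-- The bound of a block. -/
noncomputable def bk (T R : ℝ) (k : ℕ) : ℝ :=
  93 * R * (Real.log T * ((k : ℝ) + 1) ^ 2 + ((k : ℝ) + 1) ^ 4 / Real.log T) *
    (Real.exp (-(5 * Real.exp k / T)) + Real.exp (-(k : ℝ)) / T)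

lemma blk {S : Finset ℕ} (hS : ∀ m ∈ S, 1 ≤ m) (a : ℕ → ℂ) {T : ℝ} (hT : 10 ≤ T) (k : ℕ) :
    ∫⁻ δ in Icc (1 / T) (2 / T), ∫⁻ u in Icc (k : ℝ) (k + 1),
      ENNReal.ofReal (3 * (Real.log T * ((k : ℝ) + 1) ^ 2 + ((k : ℝ) + 1) ^ 4 / Real.log T)) *
        (GQ S (fun m => (a m).re) (δ, u) + GQ S (fun m => (a m).im) (δ, u) +
          ENNReal.ofReal (Rf S a * Real.exp (-(k : ℝ)))) ≤
      ENNReal.ofReal (bk T (Rf S a) k) := by
  have hT0 : 0 < T := by linarith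
  have hL : 0 < Real.log T := Real.log_pos (by linarith)
  have hR := Rf_nonneg S a
  set W : ℝ := Real.log T * ((k : ℝ) + 1) ^ 2 + ((k : ℝ) + 1) ^ 4 / Real.log T with hWdef
  have hW0 : 0 ≤ W := by positivity
  set c0 : ℝ≥0∞ := ENNReal.ofReal (3 * W) with hc0
  have m1 := meas_GQ hS (fun m => (a m).re)
  have m2 := meas_GQ hS (fun m => (a m).im)
  have m1' : ∀ δ : ℝ, Measurable fun u : ℝ => GQ S (fun m => (a m).re) (δ, u) :=
    fun δ => m1.comp measurable_prodMk_left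
  have m2' : ∀ δ : ℝ, Measurable fun u : ℝ => GQ S (fun m => (a m).im) (δ, u) :=
    fun δ => m2.comp measurable_prodMk_left
  have e1 : ∀ δ : ℝ, ∫⁻ u in Icc (k : ℝ) (k + 1), c0 *
        (GQ S (fun m => (a m).re) (δ, u) + GQ S (fun m => (a m).im) (δ, u) +
          ENNReal.ofReal (Rf S a * Real.exp (-(k : ℝ)))) =
      c0 * ((∫⁻ u in Icc (k : ℝ) (k + 1), GQ S (fun m => (a m).re) (δ, u)) +
        (∫⁻ u in Icc (k : ℝ) (k + 1), GQ S (fun m => (a m).im) (δ, u)) +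
        ENNReal.ofReal (Rf S a * Real.exp (-(k : ℝ)))) := by
    intro δ
    rw [lintegral_const_mul' _ _ ENNReal.ofReal_ne_top,
      lintegral_add_right _ measurable_const, lintegral_add_left (m1' δ), setLIntegral_const,
      Real.volume_Icc]
    have : (k : ℝ) + 1 - k = 1 := by ring
    rw [this, ENNReal.ofReal_one, mul_one]
  have M1 : Measurable fun δ : ℝ => ∫⁻ u in Icc (k : ℝ) (k + 1), GQ S (fun m => (a m).re) (δ, u) :=
    m1.lintegral_prod_right'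
  have M2 : Measurable fun δ : ℝ => ∫⁻ u in Icc (k : ℝ) (k + 1), GQ S (fun m => (a m).im) (δ, u) :=
    m2.lintegral_prod_right'
  simp only [e1]
  rw [lintegral_const_mul' _ _ ENNReal.ofReal_ne_top, lintegral_add_right _ measurable_const,
    lintegral_add_left M1, setLIntegral_const, Real.volume_Icc]
  have b1 := block_le hS (fun m => (a m).re) hT k
  have b2 := block_le hS (fun m => (a m).im) hT k
  have r1 : Rx S (fun m => (a m).re) ≤ Rf S a := Rx_le fun m => Complex.abs_re_le_norm (a m)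
  have r2 : Rx S (fun m => (a m).im) ≤ Rf S a := Rx_le fun m => Complex.abs_im_le_norm (a m)
  set E : ℝ := Real.exp (-(5 * Real.exp (k : ℝ) / T)) with hE
  have hE0 : 0 < E := Real.exp_pos _
  have b1' : ∫⁻ δ in Icc (1 / T) (2 / T), ∫⁻ u in Icc (k : ℝ) (k + 1),
      GQ S (fun m => (a m).re) (δ, u) ≤ ENNReal.ofReal (15 * Rf S a * E) :=
    b1.trans (ENNReal.ofReal_le_ofReal (by gcongr))
  have b2' : ∫⁻ δ in Icc (1 / T) (2 / T), ∫⁻ u in Icc (k : ℝ) (k + 1),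
      GQ S (fun m => (a m).im) (δ, u) ≤ ENNReal.ofReal (15 * Rf S a * E) :=
    b2.trans (ENNReal.ofReal_le_ofReal (by gcongr))
  refine (mul_le_mul' le_rfl (add_le_add (add_le_add b1' b2') le_rfl)).trans ?_
  rw [← ENNReal.ofReal_add (by positivity) (by positivity), ← ENNReal.ofReal_mul (by positivity),
    ← ENNReal.ofReal_add (by positivity) (by
      have : 2 / T - 1 / T = 1 / T := by ring
      rw [this]
      positivity), ← ENNReal.ofReal_mul (by positivity)]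
  refine ENNReal.ofReal_le_ofReal ?_
  have e4 : 2 / T - 1 / T = 1 / T := by ring
  rw [e4]
  unfold bk
  rw [← hWdef, ← hE]
  have h5 : 0 ≤ W * (Rf S a * E) := by positivity
  have h6 : 0 ≤ W * (Rf S a * (Real.exp (-(k : ℝ)) / T)) := by positivity
  have e5 : Rf S a * Real.exp (-(k : ℝ)) * (1 / T) = Rf S a * (Real.exp (-(k : ℝ)) / T) := by ring
  rw [e5]
  nlinarith

lemma summable_pe : Summable fun i : ℕ => ((i : ℝ) + 3) ^ 4 * Real.exp (-(i : ℝ)) := by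
  have h1 := Real.summable_pow_mul_exp_neg_nat_mul 4 (r := 1) one_pos
  have h2 := (summable_nat_add_iff 3).2 h1
  have h3 := h2.mul_left (Real.exp 3)
  refine h3.congr fun i => ?_
  push_cast
  have e : Real.exp (-(1 : ℝ) * ((i : ℝ) + 3)) = Real.exp (-(i : ℝ)) * Real.exp (-3) := by
    rw [← Real.exp_add]
    congr 1
    ring
  rw [e]
  have e2 : Real.exp 3 * Real.exp (-3) = 1 := by
    rw [← Real.exp_add]
    simp
  linear_combination ((i : ℝ) + 3) ^ 4 * Real.exp (-(i : ℝ)) * e2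

lemma bk_nonneg {T R : ℝ} (hT : 10 ≤ T) (hR : 0 ≤ R) (k : ℕ) : 0 ≤ bk T R k := by
  have hT0 : 0 < T := by linarith
  have hL : 0 < Real.log T := Real.log_pos (by linarith)
  unfold bk
  positivity

lemma bk_small {T R : ℝ} (hT : 10 ≤ T) (hR : 0 ≤ R) {k : ℕ} (hk : (k : ℝ) + 1 ≤ 2 * Real.log T) :
    bk T R k ≤ 3720 * R * Real.log T ^ 3 := by
  have hT0 : 0 < T := by linarith
  have hL : 0 < Real.log T := Real.log_pos (by linarith)
  have hk0 : (0 : ℝ) ≤ k := Nat.cast_nonneg k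
  have h1 : Real.log T * ((k : ℝ) + 1) ^ 2 + ((k : ℝ) + 1) ^ 4 / Real.log T ≤
      20 * Real.log T ^ 3 := by
    have h2 : ((k : ℝ) + 1) ^ 2 ≤ (2 * Real.log T) ^ 2 := pow_le_pow_left₀ (by linarith) hk 2
    have h3 : ((k : ℝ) + 1) ^ 4 ≤ (2 * Real.log T) ^ 4 := pow_le_pow_left₀ (by linarith) hk 4
    have h4 : ((k : ℝ) + 1) ^ 4 / Real.log T ≤ 16 * Real.log T ^ 3 := by
      rw [div_le_iff₀ hL]
      calc ((k : ℝ) + 1) ^ 4 ≤ (2 * Real.log T) ^ 4 := h3
        _ = _ := by ring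
    have h5 : Real.log T * ((k : ℝ) + 1) ^ 2 ≤ 4 * Real.log T ^ 3 := by
      calc Real.log T * ((k : ℝ) + 1) ^ 2 ≤ Real.log T * (2 * Real.log T) ^ 2 :=
            mul_le_mul_of_nonneg_left h2 hL.le
        _ = _ := by ring
    linarith
  have h6 : Real.exp (-(5 * Real.exp (k : ℝ) / T)) ≤ 1 := by
    rw [Real.exp_le_one_iff, neg_nonpos]
    positivity
  have h7 : Real.exp (-(k : ℝ)) / T ≤ 1 := by
    rw [div_le_one hT0]
    have : Real.exp (-(k : ℝ)) ≤ 1 := by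
      rw [Real.exp_le_one_iff]
      linarith
    linarith
  unfold bk
  calc 93 * R * (Real.log T * ((k : ℝ) + 1) ^ 2 + ((k : ℝ) + 1) ^ 4 / Real.log T) *
      (Real.exp (-(5 * Real.exp k / T)) + Real.exp (-(k : ℝ)) / T) ≤
      93 * R * (20 * Real.log T ^ 3) * 2 := by
        refine mul_le_mul (mul_le_mul_of_nonneg_left h1 (by positivity)) (by linarith)
          (by positivity) (by positivity)
    _ = _ := by ring

lemma bk_large {T R : ℝ} (hT : 10 ≤ T) (hR : 0 ≤ R) {M i : ℕ} (hM : Real.log T ≤ M)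
    (hM2 : (M : ℝ) ≤ Real.log T + 1) :
    bk T R (i + M) ≤ 372 * R * Real.log T ^ 3 * (((i : ℝ) + 3) ^ 4 * Real.exp (-(i : ℝ))) := by
  have hT0 : 0 < T := by linarith
  have hL1 : 1 ≤ Real.log T := by
    rw [Real.le_log_iff_exp_le hT0]
    have := Real.exp_one_lt_d9
    linarith
  have hL : 0 < Real.log T := by linarith
  have hi : (0 : ℝ) ≤ i := Nat.cast_nonneg i
  have hk1 : (((i + M : ℕ) : ℝ) + 1) ≤ Real.log T * ((i : ℝ) + 3) := by
    push_cast
    nlinarith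
  have hk0 : (0 : ℝ) ≤ ((i + M : ℕ) : ℝ) + 1 := by positivity
  have h1 : Real.log T * (((i + M : ℕ) : ℝ) + 1) ^ 2 + (((i + M : ℕ) : ℝ) + 1) ^ 4 / Real.log T ≤
      2 * Real.log T ^ 3 * ((i : ℝ) + 3) ^ 4 := by
    have h2 := pow_le_pow_left₀ hk0 hk1 2
    have h3 := pow_le_pow_left₀ hk0 hk1 4
    have h4 : (((i + M : ℕ) : ℝ) + 1) ^ 4 / Real.log T ≤ Real.log T ^ 3 * ((i : ℝ) + 3) ^ 4 := by
      rw [div_le_iff₀ hL]
      refine h3.trans (le_of_eq ?_)
      ring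
    have h5 : Real.log T * (((i + M : ℕ) : ℝ) + 1) ^ 2 ≤
        Real.log T ^ 3 * ((i : ℝ) + 3) ^ 4 := by
      have h6 : ((i : ℝ) + 3) ^ 2 ≤ ((i : ℝ) + 3) ^ 4 :=
        pow_le_pow_right₀ (by linarith) (by norm_num)
      calc Real.log T * (((i + M : ℕ) : ℝ) + 1) ^ 2 ≤
          Real.log T * (Real.log T * ((i : ℝ) + 3)) ^ 2 := mul_le_mul_of_nonneg_left h2 hL.le
        _ = Real.log T ^ 3 * ((i : ℝ) + 3) ^ 2 := by ring
        _ ≤ _ := mul_le_mul_of_nonneg_left h6 (by positivity)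
    linarith
  have hTe : T ≤ Real.exp (M : ℝ) := by
    rw [← Real.log_le_iff_le_exp hT0]
    exact hM
  have h6 : Real.exp (-(5 * Real.exp ((i + M : ℕ) : ℝ) / T)) ≤ Real.exp (-(i : ℝ)) := by
    apply Real.exp_le_exp.2
    apply neg_le_neg
    rw [le_div_iff₀ hT0]
    push_cast
    rw [Real.exp_add]
    have h7 : (i : ℝ) ≤ Real.exp i := by
      have := Real.add_one_le_exp (i : ℝ)
      linarith
    have h8 : (i : ℝ) * T ≤ Real.exp i * Real.exp M :=
      mul_le_mul h7 hTe hT0.le (Real.exp_pos _).le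
    have h9 : 0 < Real.exp (i : ℝ) * Real.exp M := by positivity
    linarith
  have h7 : Real.exp (-((i + M : ℕ) : ℝ)) / T ≤ Real.exp (-(i : ℝ)) := by
    rw [div_le_iff₀ hT0]
    have h8 : Real.exp (-((i + M : ℕ) : ℝ)) ≤ Real.exp (-(i : ℝ)) := by
      apply Real.exp_le_exp.2
      push_cast
      have : (0 : ℝ) ≤ M := Nat.cast_nonneg M
      linarith
    refine h8.trans (le_mul_of_one_le_right (Real.exp_pos _).le (by linarith))
  unfold bk
  calc 93 * R * (Real.log T * (((i + M : ℕ) : ℝ) + 1) ^ 2 +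
        (((i + M : ℕ) : ℝ) + 1) ^ 4 / Real.log T) *
      (Real.exp (-(5 * Real.exp ((i + M : ℕ) : ℝ) / T)) +
        Real.exp (-((i + M : ℕ) : ℝ)) / T) ≤
      93 * R * (2 * Real.log T ^ 3 * ((i : ℝ) + 3) ^ 4) * (2 * Real.exp (-(i : ℝ))) := by
        refine mul_le_mul (mul_le_mul_of_nonneg_left h1 (by positivity)) (by linarith)
          (by positivity) (by positivity)
    _ = _ := by ring

lemma bk_sum : ∃ C : ℝ, 0 < C ∧ ∀ T R : ℝ, 10 ≤ T → 0 ≤ R →
    ∑' k : ℕ, ENNReal.ofReal (bk T R k) ≤ ENNReal.ofReal (C * Real.log T ^ 4 * R) := by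
  have hs := summable_pe
  have hK : 0 ≤ ∑' i : ℕ, ((i : ℝ) + 3) ^ 4 * Real.exp (-(i : ℝ)) :=
    tsum_nonneg fun i => by positivity
  set K0 : ℝ := ∑' i : ℕ, ((i : ℝ) + 3) ^ 4 * Real.exp (-(i : ℝ)) with hK0
  refine ⟨7440 + 372 * K0, by positivity, fun T R hT hR => ?_⟩
  have hT0 : 0 < T := by linarith
  have hL1 : 1 ≤ Real.log T := by
    rw [Real.le_log_iff_exp_le hT0]
    have := Real.exp_one_lt_d9
    linarith
  obtain ⟨M, hMdef⟩ : ∃ M : ℕ, M = ⌈Real.log T⌉₊ := ⟨_, rfl⟩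
  have hM : Real.log T ≤ M := by
    rw [hMdef]
    exact Nat.le_ceil _
  have hM2 : (M : ℝ) ≤ Real.log T + 1 := by
    rw [hMdef]
    exact (Nat.ceil_lt_add_one (by linarith)).le
  have hg : Summable fun i : ℕ => 372 * R * Real.log T ^ 3 *
      (((i : ℝ) + 3) ^ 4 * Real.exp (-(i : ℝ))) := hs.mul_left _
  have hsh : Summable fun i : ℕ => bk T R (i + M) :=
    Summable.of_nonneg_of_le (fun i => bk_nonneg hT hR _) (fun i => bk_large hT hR hM hM2) hg
  have hf : Summable (bk T R) := (summable_nat_add_iff M).1 hsh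
  rw [← ENNReal.ofReal_tsum_of_nonneg (bk_nonneg hT hR) hf]
  refine ENNReal.ofReal_le_ofReal ?_
  rw [← hf.sum_add_tsum_nat_add M]
  have h1 : ∑ k ∈ Finset.range M, bk T R k ≤ 7440 * R * Real.log T ^ 4 := by
    have h2 : ∀ k ∈ Finset.range M, bk T R k ≤ 3720 * R * Real.log T ^ 3 := by
      intro k hk
      refine bk_small hT hR ?_
      rw [Finset.mem_range] at hk
      have : ((k + 1 : ℕ) : ℝ) ≤ M := by exact_mod_cast hk
      push_cast at this
      linarith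
    refine (Finset.sum_le_sum h2).trans ?_
    rw [Finset.sum_const, Finset.card_range, nsmul_eq_mul]
    calc (M : ℝ) * (3720 * R * Real.log T ^ 3) ≤
        (2 * Real.log T) * (3720 * R * Real.log T ^ 3) :=
          mul_le_mul_of_nonneg_right (by linarith) (by positivity)
      _ = _ := by ring
  have h2 : ∑' i : ℕ, bk T R (i + M) ≤ 372 * R * Real.log T ^ 3 * K0 := by
    rw [hK0, ← tsum_mul_left]
    exact hsh.tsum_le_tsum (fun i => bk_large hT hR hM hM2) hg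
  have h3 : 372 * R * Real.log T ^ 3 * K0 ≤ 372 * R * Real.log T ^ 4 * K0 := by
    refine mul_le_mul_of_nonneg_right (mul_le_mul_of_nonneg_left ?_ (by positivity)) hK
    exact pow_le_pow_right₀ hL1 (by norm_num)
  calc ∑ k ∈ Finset.range M, bk T R k + ∑' i : ℕ, bk T R (i + M) ≤
      7440 * R * Real.log T ^ 4 + 372 * R * Real.log T ^ 4 * K0 := by linarith
    _ = _ := by ring

/-- ZPOSL. -/
theorem zposl : ZPOSLStatement := by
  obtain ⟨C, hC, hb⟩ := bk_sum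
  refine ⟨C, 11, hC, by norm_num, fun T S a hT hS => ?_⟩
  have hT10 : 10 ≤ T := by linarith
  have hT0 : 0 < T := by linarith
  have hL : 0 < Real.log T := Real.log_pos (by linarith)
  refine le_trans ?_ (hb T (Rf S a) hT10 (Rf_nonneg S a))
  set G : ℕ → ℝ → ℝ → ℝ≥0∞ := fun k δ u =>
    ENNReal.ofReal (3 * (Real.log T * ((k : ℝ) + 1) ^ 2 + ((k : ℝ) + 1) ^ 4 / Real.log T)) *
        (GQ S (fun m => (a m).re) (δ, u) + GQ S (fun m => (a m).im) (δ, u) +
          ENNReal.ofReal (Rf S a * Real.exp (-(k : ℝ)))) with hG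
  have hGm : ∀ k : ℕ, Measurable fun p : ℝ × ℝ => G k p.1 p.2 := by
    intro k
    exact (((meas_GQ hS (fun m => (a m).re)).add (meas_GQ hS (fun m => (a m).im))).add
      measurable_const).const_mul _
  have hcov : Ici (0 : ℝ) ⊆ ⋃ k : ℕ, Icc (k : ℝ) (k + 1) := by
    intro u hu
    rw [mem_iUnion]
    exact ⟨⌊u⌋₊, Nat.floor_le hu, (Nat.lt_floor_add_one u).le⟩
  have h1 : ∀ δ ∈ Icc (1 / T) (2 / T), ∫⁻ u in Ici (0 : ℝ),
      ENNReal.ofReal (‖Ph S a (zr u δ)‖ ^ 2 * Real.exp u * wt T u) ≤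
      ∑' k : ℕ, ∫⁻ u in Icc (k : ℝ) (k + 1), G k δ u := by
    intro δ hδ
    have hδ0 : 0 < δ := lt_of_lt_of_le (by positivity) hδ.1
    have hδ1 : δ < 1 := by
      refine lt_of_le_of_lt hδ.2 ?_
      rw [div_lt_one hT0]
      linarith
    refine (lintegral_mono_set hcov).trans ((lintegral_iUnion_le _ _).trans ?_)
    refine ENNReal.tsum_le_tsum fun k => setLIntegral_mono' measurableSet_Icc fun u hu => ?_
    exact point_le hS a hL hδ0 hδ1 hu
  refine (setLIntegral_mono' measurableSet_Icc h1).trans ?_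
  rw [lintegral_tsum fun k => ((hGm k).lintegral_prod_right').aemeasurable]
  exact ENNReal.tsum_le_tsum fun k => blk hS a hT10 k

end Pool.Agent.Lib.MP_6bc78b_nt.GP.H35Z
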